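import Mathlib

/-!
# Maps to palettes: averaging over one coordinate, and the number of good maps

`Good G s D H f`: every vertex `u ∈ H` has at most `D` neighbours in `H` with the same palette.
The number of good maps is bounded from below by a counting argument in the manner of Rosenfeld.
-/

set_option autoImplicit false
set_option linter.unusedSectionVars false

open Finset

namespace Pool.Agent.Q208.PC

variable {V : Type} [Fintype V] [DecidableEq V]

/-- averaging over the value at one place -/
theorem avg {s : ℕ} [NeZero s] (w : V) (Φ : (V → Fin s) → ℝ) :
    (s : ℝ) * ∑ f, Φ f = ∑ f : V → Fin s, ∑ c : Fin s, Φ (Function.update f w c) := by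
  have h1 : ∀ f : V → Fin s, ∑ c : Fin s, Φ (Function.update f w c)
      = ∑ t : Fin s, Φ (Function.update f w (f w + t)) := by
    intro f
    exact (Equiv.sum_comp (Equiv.addLeft (f w)) (fun c => Φ (Function.update f w c))).symm
  rw [sum_congr rfl fun f _ => h1 f, sum_comm]
  have h2 : ∀ t : Fin s, ∑ f : V → Fin s, Φ (Function.update f w (f w + t)) = ∑ f, Φ f := by
    intro t
    let e : (V → Fin s) ≃ (V → Fin s) :=
      { toFun := fun f => Function.update f w (f w + t)
        invFun := fun f => Function.update f w (f w - t)
        left_inv := by
          intro f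
          funext x
          by_cases hx : x = w
          · subst hx; simp
          · simp [Function.update_of_ne hx]
        right_inv := by
          intro f
          funext x
          by_cases hx : x = w
          · subst hx; simp
          · simp [Function.update_of_ne hx] }
    exact Equiv.sum_comp e Φ
  rw [sum_congr rfl fun t _ => h2 t]
  simp

/-- the neighbours of `u` in `H` with the same palette -/
def same (G : SimpleGraph V) [DecidableRel G.Adj] {s : ℕ} (H : Finset V) (f : V → Fin s) (u : V) :
    Finset V := H.filter fun w => G.Adj u w ∧ f w = f u

/-- good on `H` -/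
def Good (G : SimpleGraph V) [DecidableRel G.Adj] {s : ℕ} (D : ℕ) (H : Finset V)
    (f : V → Fin s) : Prop := ∀ u ∈ H, (same G H f u).card ≤ D

instance (G : SimpleGraph V) [DecidableRel G.Adj] {s : ℕ} (D : ℕ) (H : Finset V) :
    DecidablePred (Good (s := s) G D H) := fun f => by unfold Good; infer_instance

/-- the set of the good maps -/
def GS (G : SimpleGraph V) [DecidableRel G.Adj] (s D : ℕ) (H : Finset V) : Finset (V → Fin s) :=
  univ.filter (Good G D H)

variable (G : SimpleGraph V) [DecidableRel G.Adj] {s : ℕ} (D : ℕ)

theorem same_update {H : Finset V} {f : V → Fin s} {w : V} {c : Fin s} (hw : w ∉ H) {u : V}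
    (hu : u ∈ H) : same G H (Function.update f w c) u = same G H f u := by
  unfold same
  have huw : u ≠ w := fun h => hw (h ▸ hu)
  refine filter_congr fun x hx => ?_
  have hxw : x ≠ w := fun h => hw (h ▸ hx)
  rw [Function.update_of_ne hxw, Function.update_of_ne huw]

theorem good_update {H : Finset V} {f : V → Fin s} {w : V} {c : Fin s} (hw : w ∉ H) :
    Good G D H (Function.update f w c) ↔ Good G D H f := by
  unfold Good
  refine forall₂_congr fun u hu => ?_
  rw [same_update G hw hu]

theorem good_mono {K H : Finset V} (h : K ⊆ H) {f : V → Fin s} (hf : Good G D H f) :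
    Good G D K f := by
  intro u hu
  refine le_trans (card_le_card ?_) (hf u (h hu))
  exact filter_subset_filter _ h

/-- number of the good maps, as a real number -/
noncomputable def aa (s D : ℕ) (H : Finset V) : ℝ := ((GS G s D H).card : ℝ)

theorem aa_nonneg (H : Finset V) : 0 ≤ aa G s D H := Nat.cast_nonneg _

theorem aa_eq (H : Finset V) : aa G s D H = ∑ f : V → Fin s, if Good G D H f then (1 : ℝ) else 0 := by
  unfold aa GS
  rw [card_filter]
  push_cast
  rfl

theorem aa_mono {K H : Finset V} (h : K ⊆ H) : aa G s D H ≤ aa G s D K := by
  unfold aa
  exact_mod_cast card_le_card (fun f hf => by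
    simp only [GS, mem_filter, mem_univ, true_and] at hf ⊢
    exact good_mono G D h hf)

/-- the exponential moment of the number of the neighbours in `W` with the palette of `u` -/
theorem moment [NeZero s] (x : ℝ) (K : Finset V) (u : V) : ∀ W : Finset V, Disjoint W K → u ∉ W →
    ∑ f : V → Fin s, (if Good G D K f then x ^ (W.filter fun w => f w = f u).card else 0)
      = aa G s D K * ((s - 1 + x) / s) ^ W.card := by
  intro W
  induction W using Finset.induction with
  | empty =>
    intro _ _
    rw [aa_eq]
    simp
  | insert w W hw ih =>
    intro hd hu
    have hs0 : (s : ℝ) ≠ 0 := Nat.cast_ne_zero.2 (NeZero.ne s)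
    have hwK : w ∉ K := fun h => (disjoint_left.1 hd (mem_insert_self w W)) h
    have hd' : Disjoint W K := hd.mono_left (subset_insert w W)
    have huw : u ≠ w := fun h => hu (h ▸ mem_insert_self w W)
    have hu' : u ∉ W := fun h => hu (mem_insert_of_mem h)
    have key := avg (s := s) w (fun f => if Good G D K f then
      x ^ ((insert w W).filter fun w => f w = f u).card else 0)
    have h3 : ∀ f : V → Fin s, ∑ c : Fin s, (if Good G D K (Function.update f w c) then
        x ^ ((insert w W).filter fun w' => Function.update f w c w' = Function.update f w c u).card
          else 0)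
        = (s - 1 + x) * (if Good G D K f then x ^ (W.filter fun w => f w = f u).card else 0) := by
      intro f
      by_cases hG : Good G D K f
      · have h4 : ∀ c : Fin s, (if Good G D K (Function.update f w c) then
            x ^ ((insert w W).filter fun w' => Function.update f w c w' = Function.update f w c u).card
              else 0) = (if c = f u then x else 1) * x ^ (W.filter fun w => f w = f u).card := by
          intro c
          rw [if_pos ((good_update G D hwK).2 hG)]
          have h5 : (W.filter fun w' => Function.update f w c w' = Function.update f w c u)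
              = W.filter fun w => f w = f u := by
            refine filter_congr fun y hy => ?_
            have hyw : y ≠ w := fun h => hw (h ▸ hy)
            rw [Function.update_of_ne hyw, Function.update_of_ne huw]
          rw [filter_insert, Function.update_self, Function.update_of_ne huw]
          by_cases hc : c = f u
          · rw [if_pos hc, if_pos hc, card_insert_of_notMem
              (fun h => hw (mem_filter.1 h).1), pow_succ]
            have h6 := congrArg Finset.card h5
            rw [Function.update_of_ne huw] at h6
            rw [h6]
            ring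
          · rw [if_neg hc, if_neg hc, one_mul]
            have h6 := congrArg Finset.card h5
            rw [Function.update_of_ne huw] at h6
            rw [h6]
        rw [sum_congr rfl fun c _ => h4 c, ← sum_mul, if_pos hG]
        congr 1
        have h7 : ∀ c : Fin s, (if c = f u then x else (1 : ℝ)) = (if c = f u then x - 1 else 0) + 1 := by
          intro c; split_ifs <;> ring
        rw [sum_congr rfl fun c _ => h7 c, sum_add_distrib, sum_ite_eq' univ (f u)]
        simp
        ring
      · rw [if_neg hG, mul_zero]
        refine sum_eq_zero fun c _ => ?_
        rw [if_neg fun h => hG ((good_update G D hwK).1 h)]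
    rw [sum_congr rfl fun f _ => h3 f, ← mul_sum, ih hd' hu'] at key
    rw [card_insert_of_notMem hw, pow_succ]
    field_simp at key ⊢
    linarith [key]

/-- Markov: the number of the maps, good on `K`, for which `u` has more than `D` neighbours in `W`
with its palette -/
theorem markov [NeZero s] {x : ℝ} (hx : 1 ≤ x) (K W : Finset V) (hd : Disjoint W K) {u : V}
    (hu : u ∉ W) {Δ : ℕ} (hW : W.card ≤ Δ) :
    ((univ.filter fun f : V → Fin s => Good G D K f ∧
      D < (W.filter fun w => f w = f u).card).card : ℝ) * x ^ (D + 1)
      ≤ aa G s D K * ((s - 1 + x) / s) ^ Δ := by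
  have hs0 : (0 : ℝ) < s := Nat.cast_pos.2 (Nat.pos_of_ne_zero (NeZero.ne s))
  have h1 : (1 : ℝ) ≤ (s - 1 + x) / s := by
    rw [le_div_iff₀ hs0]; linarith
  have h2 := moment (s := s) G D x K u W hd hu
  calc ((univ.filter fun f : V → Fin s => Good G D K f ∧
      D < (W.filter fun w => f w = f u).card).card : ℝ) * x ^ (D + 1)
      = ∑ f ∈ univ.filter (fun f : V → Fin s => Good G D K f ∧
          D < (W.filter fun w => f w = f u).card), x ^ (D + 1) := by
        rw [sum_const, nsmul_eq_mul]
    _ ≤ ∑ f ∈ univ.filter (fun f : V → Fin s => Good G D K f ∧
          D < (W.filter fun w => f w = f u).card),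
          (if Good G D K f then x ^ (W.filter fun w => f w = f u).card else 0) := by
        refine sum_le_sum fun f hf => ?_
        obtain ⟨h3, h4⟩ := (mem_filter.1 hf).2
        rw [if_pos h3]
        exact pow_le_pow_right₀ hx h4
    _ ≤ ∑ f : V → Fin s, (if Good G D K f then x ^ (W.filter fun w => f w = f u).card else 0) := by
        refine sum_le_sum_of_subset_of_nonneg (filter_subset _ _) fun f _ _ => ?_
        split_ifs
        · positivity
        · exact le_rfl
    _ = aa G s D K * ((s - 1 + x) / s) ^ W.card := h2
    _ ≤ aa G s D K * ((s - 1 + x) / s) ^ Δ :=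
        mul_le_mul_of_nonneg_left (pow_le_pow_right₀ h1 hW) (aa_nonneg G D K)

end Pool.Agent.Q208.PC
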