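import Pool.Agent.Q208.PC.Ros

/-!
# Colourings from good maps and colourings of the parts
-/

set_option autoImplicit false
set_option linter.unusedSectionVars false

open Finset

namespace Pool.Agent.Q208.PC

/-- the edges of `G` inside the parts of `f` -/
def part {V : Type} (G : SimpleGraph V) {s : ℕ} (f : V → Fin s) : SimpleGraph V where
  Adj u v := G.Adj u v ∧ f u = f v
  symm := ⟨fun _ _ h => ⟨h.1.symm, h.2.symm⟩⟩
  loopless := ⟨fun u h => G.loopless.irrefl u h.1⟩

theorem part_le {V : Type} (G : SimpleGraph V) {s : ℕ} (f : V → Fin s) : part G f ≤ G :=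
  fun _ _ h => h.1

/-- the number of edges -/
noncomputable def edges {V : Type} (G : SimpleGraph V) : ℕ := Nat.card G.edgeSet

/-- the degree -/
noncomputable def deg {V : Type} (G : SimpleGraph V) (v : V) : ℕ := Nat.card (G.neighborSet v)

/-- the number of colourings -/
noncomputable def cc {V : Type} (G : SimpleGraph V) (q : ℕ) : ℝ := (Nat.card (G.Coloring (Fin q)) : ℝ)

instance {V : Type} [Finite V] (G : SimpleGraph V) (q : ℕ) : Finite (G.Coloring (Fin q)) :=
  DFunLike.finite _

theorem deg_eq {V : Type} [Fintype V] (G : SimpleGraph V) [DecidableRel G.Adj] (v : V) :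
    deg G v = G.degree v := by
  classical
  unfold deg
  rw [Nat.card_eq_fintype_card, SimpleGraph.card_neighborSet_eq_degree]

theorem edges_eq {V : Type} [Fintype V] [DecidableEq V] (G : SimpleGraph V) [DecidableRel G.Adj] :
    edges G = G.edgeFinset.card := by
  unfold edges
  rw [Nat.card_eq_fintype_card, SimpleGraph.edgeFinset_card]

/-- colourings of the parts with separate palettes give different colourings -/
theorem sum_cc {V : Type} [Fintype V] [DecidableEq V] (G : SimpleGraph V) {s k q : ℕ}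
    (hq : s * k ≤ q) (F : Finset (V → Fin s)) : ∑ f ∈ F, cc (part G f) k ≤ cc G q := by
  classical
  unfold cc
  have h1 : ∑ f ∈ F, (Nat.card ((part G f).Coloring (Fin k)) : ℝ)
      = (Nat.card ((f : F) × (part G f.1).Coloring (Fin k)) : ℝ) := by
    rw [Nat.card_sigma]
    push_cast
    exact (sum_coe_sort F fun f => (Nat.card ((part G f).Coloring (Fin k)) : ℝ)).symm
  rw [h1]
  let ι : Fin s × Fin k → Fin q := fun x => Fin.castLE hq (finProdFinEquiv x)
  have hι : Function.Injective ι := fun x y h =>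
    finProdFinEquiv.injective (Fin.castLE_injective hq h)
  let Φ : ((f : F) × (part G f.1).Coloring (Fin k)) → G.Coloring (Fin q) := fun x =>
    SimpleGraph.Coloring.mk (fun v => ι (x.1.1 v, x.2 v)) (by
      intro u v huv h
      have h2 := hι h
      rw [Prod.mk.injEq] at h2
      exact x.2.valid ⟨huv, h2.1⟩ h2.2)
  have hΦ : Function.Injective Φ := by
    rintro ⟨⟨f, hf⟩, g⟩ ⟨⟨f', hf'⟩, g'⟩ h
    have h3 : ∀ v, f v = f' v ∧ g v = g' v := by
      intro v
      have h4 := DFunLike.congr_fun h v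
      have h5 := hι h4
      rw [Prod.mk.injEq] at h5
      exact h5
    have h6 : f = f' := funext fun v => (h3 v).1
    subst h6
    congr 1
    exact DFunLike.ext _ _ fun v => (h3 v).2
  exact_mod_cast Nat.card_le_card_of_injective Φ hΦ

variable {V : Type} [Fintype V] [DecidableEq V] (G : SimpleGraph V) [DecidableRel G.Adj] {s : ℕ}
  (D : ℕ)

theorem deg_part {f : V → Fin s} (hf : f ∈ GS G s D univ) (v : V) : deg (part G f) v ≤ D := by
  classical
  simp only [GS, mem_filter, mem_univ, true_and] at hf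
  have h := hf v (mem_univ v)
  unfold deg
  have h1 : (part G f).neighborSet v = ((same G univ f v : Finset V) : Set V) := by
    ext w
    simp only [SimpleGraph.mem_neighborSet, part, same, coe_filter, mem_univ, true_and,
      Set.mem_ofPred_eq]
    exact ⟨fun h => ⟨h.1, h.2.symm⟩, fun h => ⟨h.1, h.2.symm⟩⟩
  rw [h1, Nat.card_coe_set_eq, Set.ncard_coe_finset]
  exact h

/-- the average number of the edges inside the parts -/
theorem sum_edges [NeZero s] {Δ : ℕ} (hΔ : ∀ v, G.degree v ≤ Δ) (hp : Param s D Δ) :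
    (∑ f ∈ GS G s D univ, (edges (part G f) : ℝ)) * (th Δ * s) ≤ aa G s D univ * edges G := by
  classical
  have h1 : ∀ f : V → Fin s, (2 : ℝ) * edges (part G f)
      = ∑ u : V, ∑ v : V, if G.Adj u v ∧ f u = f v then (1 : ℝ) else 0 := by
    intro f
    have : DecidableRel (part G f).Adj := fun u v => by unfold part; infer_instance
    have h2 := (part G f).sum_degrees_eq_twice_card_edges
    rw [← edges_eq] at h2
    have h3 : (2 : ℝ) * edges (part G f) = ∑ v : V, ((part G f).degree v : ℝ) := by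
      exact_mod_cast h2.symm
    rw [h3]
    refine sum_congr rfl fun u _ => ?_
    rw [← sum_filter, sum_const, nsmul_eq_mul, mul_one, ← SimpleGraph.card_neighborFinset_eq_degree]
    congr 2
    ext v
    rw [SimpleGraph.mem_neighborFinset]
    simp [part]
  have h1' : (2 : ℝ) * edges G = ∑ u : V, ∑ v : V, if G.Adj u v then (1 : ℝ) else 0 := by
    have h2 := G.sum_degrees_eq_twice_card_edges
    rw [← edges_eq] at h2
    have h3 : (2 : ℝ) * edges G = ∑ v : V, (G.degree v : ℝ) := by
      exact_mod_cast h2.symm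
    rw [h3]
    refine sum_congr rfl fun u _ => ?_
    rw [← sum_filter, sum_const, nsmul_eq_mul, mul_one, ← SimpleGraph.card_neighborFinset_eq_degree]
    congr 2
    ext v
    simp
  have h4 : 2 * ∑ f ∈ GS G s D univ, (edges (part G f) : ℝ)
      = ∑ u : V, ∑ v : V, if G.Adj u v then
        (((GS G s D univ).filter fun f => f u = f v).card : ℝ) else 0 := by
    rw [mul_sum, sum_congr rfl fun f _ => h1 f, sum_comm]
    refine sum_congr rfl fun u _ => ?_
    rw [sum_comm]
    refine sum_congr rfl fun v _ => ?_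
    by_cases huv : G.Adj u v
    · rw [if_pos huv, ← sum_filter, sum_const, nsmul_eq_mul, mul_one]
      simp [huv]
    · rw [if_neg huv]
      refine sum_eq_zero fun f _ => ?_
      rw [if_neg fun h => huv h.1]
  have h5 : (2 * ∑ f ∈ GS G s D univ, (edges (part G f) : ℝ)) * (th Δ * s)
      ≤ aa G s D univ * (2 * edges G) := by
    rw [h4, h1', sum_mul, mul_sum]
    refine sum_le_sum fun u _ => ?_
    rw [sum_mul, mul_sum]
    refine sum_le_sum fun v _ => ?_
    by_cases huv : G.Adj u v
    · rw [if_pos huv, if_pos huv, mul_one]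
      exact mono_edge G D hΔ hp huv.ne
    · rw [if_neg huv, if_neg huv]; simp
  linarith

/-- Jensen -/
theorem jensen {ι : Type} (F : Finset ι) (e : ι → ℝ) {L μ : ℝ} (hL : 0 ≤ L)
    (h : ∑ f ∈ F, e f ≤ F.card * μ) :
    (F.card : ℝ) * Real.exp (-(L * μ)) ≤ ∑ f ∈ F, Real.exp (-(L * e f)) := by
  have h1 : ∀ f ∈ F, Real.exp (-(L * μ)) * (1 - L * (e f - μ)) ≤ Real.exp (-(L * e f)) := by
    intro f _
    have h2 : Real.exp (-(L * e f)) = Real.exp (-(L * μ)) * Real.exp (-(L * (e f - μ))) := by
      rw [← Real.exp_add]; congr 1; ring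
    rw [h2]
    refine mul_le_mul_of_nonneg_left ?_ (Real.exp_pos _).le
    have := Real.add_one_le_exp (-(L * (e f - μ)))
    linarith
  refine le_trans ?_ (sum_le_sum h1)
  rw [← mul_sum, mul_comm (F.card : ℝ)]
  refine mul_le_mul_of_nonneg_left ?_ (Real.exp_pos _).le
  have h3 : ∑ f ∈ F, (1 - L * (e f - μ)) = F.card - L * (∑ f ∈ F, e f - F.card * μ) := by
    rw [sum_sub_distrib, ← mul_sum, sum_sub_distrib]
    simp
  rw [h3]
  nlinarith

/-- **the transfer of the counting inequality** -/
theorem transfer [NeZero s] {Δ k q : ℕ} (hΔ : ∀ v, G.degree v ≤ Δ) (hp : Param s D Δ)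
    (hk : 2 ≤ k) (hq : s * k ≤ q) {A : ℝ} (hA : 0 ≤ A)
    (h : ∀ f ∈ GS G s D univ, (1 - 1 / (k : ℝ)) ^ edges (part G f) * A ≤ cc (part G f) k) :
    (th Δ * s) ^ Fintype.card V * Real.exp (-(-Real.log (1 - 1 / (k : ℝ)) *
      (edges G / (th Δ * s)))) * A ≤ cc G q := by
  have hkR : (2 : ℝ) ≤ k := by exact_mod_cast hk
  have hy0 : 0 < 1 - 1 / (k : ℝ) := by
    have : 1 / (k : ℝ) ≤ 1 / 2 := by apply one_div_le_one_div_of_le <;> linarith
    linarith
  have hy1 : 1 - 1 / (k : ℝ) ≤ 1 := by
    have : 0 ≤ 1 / (k : ℝ) := by positivity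
    linarith
  have hL : 0 ≤ -Real.log (1 - 1 / (k : ℝ)) := by
    have := Real.log_nonpos hy0.le hy1
    linarith
  have ht0 : 0 < th Δ := lt_of_lt_of_le (by norm_num) (th_pos Δ)
  have hs0 : (0 : ℝ) < s := Nat.cast_pos.2 (Nat.pos_of_ne_zero (NeZero.ne s))
  have hts : 0 < th Δ * s := mul_pos ht0 hs0
  have hE := sum_edges G D hΔ hp
  have hJ := jensen (GS G s D univ) (fun f => (edges (part G f) : ℝ)) (L := -Real.log (1 - 1 / (k : ℝ)))
    (μ := edges G / (th Δ * s)) hL (by
      rw [mul_div_assoc', le_div_iff₀ hts]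
      exact hE)
  have hC := count G D hΔ hp
  have h2 : ∀ f ∈ GS G s D univ, Real.exp (-(-Real.log (1 - 1 / (k : ℝ)) *
      (edges (part G f) : ℝ))) * A ≤ cc (part G f) k := by
    intro f hf
    refine le_trans (le_of_eq ?_) (h f hf)
    congr 1
    rw [neg_mul, neg_neg, mul_comm, Real.exp_nat_mul, Real.exp_log hy0]
  calc (th Δ * s) ^ Fintype.card V * Real.exp (-(-Real.log (1 - 1 / (k : ℝ)) *
      (edges G / (th Δ * s)))) * A
      ≤ aa G s D univ * Real.exp (-(-Real.log (1 - 1 / (k : ℝ)) *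
      (edges G / (th Δ * s)))) * A := by
        refine mul_le_mul_of_nonneg_right (mul_le_mul_of_nonneg_right hC (Real.exp_pos _).le) hA
    _ ≤ (∑ f ∈ GS G s D univ, Real.exp (-(-Real.log (1 - 1 / (k : ℝ)) *
      (edges (part G f) : ℝ)))) * A := mul_le_mul_of_nonneg_right hJ hA
    _ = ∑ f ∈ GS G s D univ, Real.exp (-(-Real.log (1 - 1 / (k : ℝ)) *
      (edges (part G f) : ℝ))) * A := by rw [sum_mul]
    _ ≤ ∑ f ∈ GS G s D univ, cc (part G f) k := sum_le_sum h2
    _ ≤ cc G q := sum_cc G hq _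

/-- **existence in the parts gives many colourings** -/
theorem transfer_exist [NeZero s] {Δ k q : ℕ} (hΔ : ∀ v, G.degree v ≤ Δ) (hp : Param s D Δ)
    (hq : s * k ≤ q) (h : ∀ f ∈ GS G s D univ, (part G f).Colorable k) :
    (th Δ * s) ^ Fintype.card V ≤ cc G q := by
  have hC := count G D hΔ hp
  refine hC.trans (le_trans ?_ (sum_cc G hq (GS G s D univ)))
  unfold aa
  rw [← nsmul_one, ← sum_const]
  refine sum_le_sum fun f hf => ?_
  unfold cc
  obtain ⟨C⟩ := h f hf
  have : Nonempty ((part G f).Coloring (Fin k)) := ⟨C⟩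
  have : 0 < Nat.card ((part G f).Coloring (Fin k)) := Nat.card_pos
  exact_mod_cast this

end Pool.Agent.Q208.PC
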