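import Pool.Agent.Q208.PC.Ros

/-!
# The choice of the number of parts
-/

set_option autoImplicit false
set_option maxHeartbeats 4000000

open Filter Topology

namespace Pool.Agent.Q208.PC

theorem ev_exp {κ α : ℝ} (hκ : 0 < κ) (hα : 0 < α) :
    ∀ᶠ n : ℕ in atTop, 4 * ((n : ℝ) + 1) ^ 2 ≤ Real.exp (κ * (n : ℝ) ^ α) := by
  have h1 : Tendsto (fun n : ℕ => (n : ℝ) ^ α) atTop atTop :=
    (tendsto_rpow_atTop hα).comp tendsto_natCast_atTop_atTop
  have h2 := (isLittleO_rpow_exp_pos_mul_atTop (3 / α) hκ).comp_tendsto h1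
  have h3 := h2.bound (show (0 : ℝ) < 1 by norm_num)
  filter_upwards [h3, eventually_ge_atTop 10] with n hn hn10
  have hnR : (10 : ℝ) ≤ n := by exact_mod_cast hn10
  have hn0 : (0 : ℝ) < n := by linarith
  simp only [Function.comp, one_mul, Real.norm_eq_abs, abs_of_pos (Real.exp_pos _)] at hn
  rw [abs_of_nonneg (by positivity), ← Real.rpow_mul hn0.le, mul_div_cancel₀ _ hα.ne',
    show (3 : ℝ) = ((3 : ℕ) : ℝ) by norm_num, Real.rpow_natCast] at hn
  refine le_trans ?_ hn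
  nlinarith [mul_pos hn0 hn0, mul_pos (mul_pos hn0 hn0) hn0]

/-- the error of the parameters -/
noncomputable def ww (c1 α β : ℝ) (n : ℕ) : ℝ :=
  Real.log n / (c1 * (n : ℝ) ^ α) + 2 / α * (n : ℝ) ^ (β - 1) + 1 / n

theorem tend_ww {c1 α β : ℝ} (hc : 0 < c1) (hα : 0 < α) (hβ : β < 1) :
    Tendsto (fun n : ℕ => ww c1 α β n * Real.log n) atTop (𝓝 0) := by
  have h1 : Tendsto (fun x : ℝ => (Real.log x / (c1 * x ^ α) + 2 / α * x ^ (β - 1) + 1 / x) *
      Real.log x) atTop (𝓝 0) := by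
    have h2 : Tendsto (fun x : ℝ => Real.log x ^ (2 : ℕ) / x ^ α) atTop (𝓝 0) := by
      have h5 := (isLittleO_log_rpow_atTop (half_pos hα)).tendsto_div_nhds_zero
      have h6 := h5.pow 2
      rw [show (0 : ℝ) ^ 2 = 0 by norm_num] at h6
      refine h6.congr' ?_
      filter_upwards [eventually_gt_atTop 0] with x hx
      rw [div_pow, ← Real.rpow_natCast (x ^ (α / 2)) 2, ← Real.rpow_mul hx.le]
      congr 2
      push_cast
      ring
    have h3 := (isLittleO_log_rpow_atTop (show (0 : ℝ) < 1 by norm_num)).tendsto_div_nhds_zero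
    have h3' := (isLittleO_log_rpow_atTop (show (0 : ℝ) < 1 - β by linarith)).tendsto_div_nhds_zero
    have h4 : Tendsto (fun x : ℝ => (1 / c1) * (Real.log x ^ (2 : ℕ) / x ^ α) +
        2 / α * (Real.log x / x ^ (1 - β)) + Real.log x / x ^ (1 : ℝ)) atTop
        (𝓝 ((1 / c1) * 0 + 2 / α * 0 + 0)) := ((h2.const_mul _).add (h3'.const_mul _)).add h3
    rw [mul_zero, mul_zero, add_zero, add_zero] at h4
    refine h4.congr' ?_
    filter_upwards [eventually_gt_atTop 0] with x hx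
    have hxa : 0 < x ^ α := Real.rpow_pos_of_pos hx _
    have hxb : 0 < x ^ (1 - β) := Real.rpow_pos_of_pos hx _
    have hxc : x ^ (β - 1) = (x ^ (1 - β))⁻¹ := by
      rw [← Real.rpow_neg hx.le]; congr 1; ring
    rw [Real.rpow_one, hxc]
    field_simp
  exact h1.comp tendsto_natCast_atTop_atTop

theorem ww_nonneg {c1 α β : ℝ} (hc : 0 < c1) (hα : 0 < α) (n : ℕ) : 0 ≤ ww c1 α β n := by
  unfold ww
  have h1 : 0 ≤ Real.log (n : ℝ) := Real.log_natCast_nonneg n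
  have h2 : 0 ≤ (n : ℝ) ^ α := Real.rpow_nonneg (Nat.cast_nonneg n) _
  have h3 : 0 ≤ (n : ℝ) ^ (β - 1) := Real.rpow_nonneg (Nat.cast_nonneg n) _
  positivity

/-- the final comparison -/
theorem ev_final {c1 α β c η : ℝ} (hc1 : 0 < c1) (hα : 0 < α) (hβ : β < 1) (hη0 : 0 < η) :
    ∀ᶠ n : ℕ in atTop, ww c1 α β n ≤ 1 / 8 ∧
      Real.exp (2 * (ww c1 α β n * Real.log n) / c) * (1 - η) ≤
        (1 - ww c1 α β n) ^ 2 * (1 - η / 2) := by
  have h1 := tend_ww hc1 hα hβ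
  have h2 : Tendsto (fun n : ℕ => ww c1 α β n) atTop (𝓝 0) := by
    refine squeeze_zero' ?_ ?_ h1
    · exact Eventually.of_forall fun n => ww_nonneg hc1 hα n
    · filter_upwards [eventually_ge_atTop 3] with n hn
      have hnR : (3 : ℝ) ≤ n := by exact_mod_cast hn
      have h1 : 1 ≤ Real.log n := by
        rw [Real.le_log_iff_exp_le (by linarith)]
        have := Real.exp_one_lt_d9
        linarith
      have h0 := ww_nonneg (β := β) hc1 hα n
      nlinarith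
  have h3 : Tendsto (fun n : ℕ => Real.exp (2 * (ww c1 α β n * Real.log n) / c) * (1 - η)) atTop
      (𝓝 (Real.exp (2 * 0 / c) * (1 - η))) :=
    ((Real.continuous_exp.tendsto _).comp ((h1.const_mul 2).div_const c)).mul_const _
  have h4 : Tendsto (fun n : ℕ => (1 - ww c1 α β n) ^ 2 * (1 - η / 2)) atTop
      (𝓝 ((1 - 0) ^ 2 * (1 - η / 2))) := ((h2.const_sub 1).pow 2).mul_const _
  have h5 := h3.eventually_lt h4 (by
    rw [mul_zero, zero_div, Real.exp_zero]; linarith)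
  have h6 := h2.eventually (gt_mem_nhds (show (0 : ℝ) < 1 / 8 by norm_num))
  filter_upwards [h5, h6] with n hn hn2
  exact ⟨hn2.le, hn.le⟩

theorem aux_w {w : ℝ} (h0 : 0 ≤ w) (h1 : w ≤ 1 / 8) : 1 ≤ (1 + 4 * w) * (1 - w) ^ 2 := by
  have h2 : (1 + 4 * w) * (1 - w) ^ 2 = 1 + w * (2 - 7 * w + 4 * w ^ 2) := by ring
  have h3 : 0 ≤ 2 - 7 * w + 4 * w ^ 2 := by nlinarith [sq_nonneg w]
  have h4 := mul_nonneg h0 h3
  linarith

/-- the set `S` meets all intervals `[x, x^R]`, `R > 1`, `x` large -/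
def LogDense (S : Set ℕ) : Prop :=
  ∀ R : ℝ, 1 < R → ∀ᶠ x : ℝ in atTop, ∃ D ∈ S, x ≤ (D : ℝ) ∧ (D : ℝ) ≤ x ^ R

/-- **the choice of the number of parts** -/
theorem scale {c1 c2 c3 η : ℝ} (h1 : 0 < c1) (h12 : c1 ≤ c2) (h23 : c2 < c3) (hη0 : 0 < η)
    (hη1 : η < 1) {S : Set ℕ} (hS : LogDense S) {kk : ℕ → ℕ}
    (hkk : ∀ᶠ D : ℕ in atTop, D ∈ S →
      c1 * (D / Real.log D) ≤ kk D ∧ (kk D : ℝ) ≤ c2 * (D / Real.log D))
    (Y : ℕ) :
    ∃ Δ0 : ℕ, ∀ Δ : ℕ, Δ0 ≤ Δ → ∀ q : ℕ, c3 * (Δ / Real.log Δ) ≤ q →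
      (q : ℝ) ≤ 2 * (Δ / Real.log Δ) → ∃ s D : ℕ, D ∈ S ∧
        1 ≤ s ∧ 2 ≤ kk D ∧ s * kk D ≤ q ∧ Y ≤ D ∧
        Param s D Δ ∧
        1 / (q : ℝ) ≤ 1 / (((kk D : ℝ) - 1) * (th Δ * s)) ∧
        Real.exp (Δ / 2 * (1 / (((kk D : ℝ) - 1) * (th Δ * s)) - 1 / q)) * ((1 - η) * q) ≤
          th Δ * s * ((1 - η / 2) * kk D) := by
  -- constants
  have hc2 : 0 < c2 := by linarith
  have hc3 : 0 < c3 := by linarith
  obtain ⟨l, hl⟩ : ∃ l, l = (c2 + c3) / 2 := ⟨_, rfl⟩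
  have hl1 : c2 < l := by linarith
  have hl2 : l < c3 := by linarith
  have hl0 : 0 < l := by linarith
  obtain ⟨e, he⟩ : ∃ e, e = (l / c2 - 1) / 4 := ⟨_, rfl⟩
  have he0 : 0 < e := by
    rw [he]
    have : 1 < l / c2 := by rw [lt_div_iff₀ hc2]; linarith
    linarith
  have hle : l = (1 + 4 * e) * c2 := by rw [he]; field_simp; ring
  obtain ⟨κ, hκ⟩ : ∃ κ, κ = e ^ 2 / ((1 + e) * (1 + 2 * e)) := ⟨_, rfl⟩
  have hκ0 : 0 < κ := by rw [hκ]; positivity
  obtain ⟨τ, hτ⟩ : ∃ τ, τ = min (2 * e) (1 / 2) := ⟨_, rfl⟩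
  have hτ0 : 0 < τ := by rw [hτ]; exact lt_min (by linarith) (by norm_num)
  have hτ1 : τ ≤ 2 * e := by rw [hτ]; exact min_le_left _ _
  have hτ2 : τ ≤ 1 / 2 := by rw [hτ]; exact min_le_right _ _
  obtain ⟨α, hα⟩ : ∃ α, α = l / 2 := ⟨_, rfl⟩
  have hα0 : 0 < α := by rw [hα]; linarith
  obtain ⟨b, hb⟩ : ∃ b, b = l / c3 := ⟨_, rfl⟩
  have hb0 : 0 < b := by rw [hb]; positivity
  have hb1 : b < 1 := by rw [hb, div_lt_one hc3]; exact hl2
  obtain ⟨β, hβ⟩ : ∃ β, β = (b + 1) / 2 := ⟨_, rfl⟩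
  have hβ1 : β < 1 := by rw [hβ]; linarith
  obtain ⟨R, hR⟩ : ∃ R, R = β / b := ⟨_, rfl⟩
  have hR1 : 1 < R := by rw [hR, lt_div_iff₀ hb0, hβ]; linarith
  have hbR : b * R = β := by rw [hR]; field_simp
  -- large D
  obtain ⟨Y0, hY0⟩ := eventually_atTop.1 hkk
  obtain ⟨Y2, hY2⟩ := eventually_atTop.1 (hS R hR1)
  obtain ⟨Y1, hY1⟩ : ∃ Y1 : ℝ, Y1 = max (max (Y0 : ℝ) Y) (max 3 Y2) := ⟨_, rfl⟩
  -- large Δ
  have hE1 : ∀ᶠ n : ℕ in atTop, Y1 ≤ (n : ℝ) ^ α :=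
    ((tendsto_rpow_atTop hα0).comp tendsto_natCast_atTop_atTop).eventually_ge_atTop Y1
  have hE2 : ∀ᶠ n : ℕ in atTop, 2 * (n : ℝ) ^ (β - 1) ≤ τ := by
    have h : Tendsto (fun n : ℕ => (n : ℝ) ^ (-(1 - β))) atTop (𝓝 0) :=
      (tendsto_rpow_neg_atTop (by linarith : 0 < 1 - β)).comp tendsto_natCast_atTop_atTop
    have h2 := h.eventually (gt_mem_nhds (half_pos hτ0))
    filter_upwards [h2] with n hn
    rw [show β - 1 = -(1 - β) by ring]
    linarith
  obtain ⟨Δ0, hΔ0⟩ := eventually_atTop.1 ((hE1.and hE2).and ((ev_exp hκ0 hα0).and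
    ((ev_final (c := c3) h1 hα0 hβ1 hη0).and (eventually_ge_atTop 3))))
  refine ⟨Δ0, fun Δ hΔ q hq1 hq2 => ?_⟩
  obtain ⟨⟨F1, F2⟩, F3, ⟨hw8, hwfin⟩, F5⟩ := hΔ0 Δ hΔ
  have hΔR : (3 : ℝ) ≤ Δ := by exact_mod_cast F5
  have hΔp : (0 : ℝ) < Δ := by linarith
  have hlogΔ : 0 < Real.log Δ := Real.log_pos (by linarith)
  have hq0 : (0 : ℝ) < q := lt_of_lt_of_le (by positivity) hq1
  have hzlo : Real.log Δ / 2 ≤ Δ / q := by
    rw [div_le_div_iff₀ (by norm_num) hq0]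
    rw [mul_div_assoc', le_div_iff₀ hlogΔ] at hq2
    linarith
  have hzhi : Δ / q ≤ Real.log Δ / c3 := by
    rw [div_le_div_iff₀ hq0 hc3]
    rw [mul_div_assoc', div_le_iff₀ hlogΔ] at hq1
    linarith
  obtain ⟨y, hy⟩ : ∃ y, y = Real.exp (l * (Δ / q)) := ⟨_, rfl⟩
  have hyp : 0 < y := by rw [hy]; exact Real.exp_pos _
  have hlogy : Real.log y = l * (Δ / q) := by rw [hy, Real.log_exp]
  have hylo : (Δ : ℝ) ^ α ≤ y := by
    rw [Real.rpow_def_of_pos hΔp, hy, Real.exp_le_exp, hα]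
    have := mul_le_mul_of_nonneg_left hzlo hl0.le
    linarith
  have hyhi : y ≤ (Δ : ℝ) ^ b := by
    rw [Real.rpow_def_of_pos hΔp, hy, Real.exp_le_exp, hb]
    have := mul_le_mul_of_nonneg_left hzhi hl0.le
    calc l * (Δ / q) ≤ l * (Real.log Δ / c3) := this
      _ = Real.log Δ * (l / c3) := by ring
  have hyY : Y1 ≤ y := F1.trans hylo
  have hy3 : 3 ≤ y := by
    refine le_trans ?_ hyY; rw [hY1]; exact (le_max_left _ _).trans (le_max_right _ _)
  have hyY2 : Y2 ≤ y := by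
    refine le_trans ?_ hyY; rw [hY1]; exact (le_max_right _ _).trans (le_max_right _ _)
  -- D
  obtain ⟨D, hDS, hDy, hDyR⟩ := hY2 y hyY2
  have hD0 : (0 : ℝ) < D := by linarith
  have hDβ : (D : ℝ) ≤ (Δ : ℝ) ^ β := by
    refine hDyR.trans ?_
    rw [← hbR, Real.rpow_mul hΔp.le]
    exact Real.rpow_le_rpow hyp.le hyhi (by linarith)
  have hDΔ : (D : ℝ) / Δ ≤ 2 * (Δ : ℝ) ^ (β - 1) := by
    rw [Real.rpow_sub_one hΔp.ne', mul_div_assoc']
    have h0 : 0 ≤ (Δ : ℝ) ^ β := Real.rpow_nonneg hΔp.le _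
    exact div_le_div_of_nonneg_right (hDβ.trans (by linarith)) hΔp.le
  have hDτ : (D : ℝ) ≤ τ * Δ := by
    have := hDΔ.trans F2
    rwa [div_le_iff₀ hΔp] at this
  have hlogD : l * (Δ / q) ≤ Real.log D := by
    rw [← hlogy]; exact Real.log_le_log hyp hDy
  have hlogD1 : α * Real.log Δ ≤ Real.log D := by
    refine le_trans ?_ hlogD
    have := mul_le_mul_of_nonneg_left hzlo hl0.le
    rw [hα]; linarith
  have hlogD0 : 0 < Real.log D := lt_of_lt_of_le (mul_pos hα0 hlogΔ) hlogD1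
  have hlogD2 : Real.log D ≤ Real.log Δ := by
    refine Real.log_le_log hD0 (hDτ.trans ?_)
    calc τ * (Δ : ℝ) ≤ 1 * Δ := mul_le_mul_of_nonneg_right (by linarith) hΔp.le
      _ = Δ := one_mul _
  have hDY0 : Y0 ≤ D := by
    have : (Y0 : ℝ) ≤ D := by
      refine le_trans ?_ (hyY.trans hDy); rw [hY1]
      exact (le_max_left _ _).trans (le_max_left _ _)
    exact_mod_cast this
  have hDY : Y ≤ D := by
    have : (Y : ℝ) ≤ D := by
      refine le_trans ?_ (hyY.trans hDy); rw [hY1]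
      exact (le_max_right _ _).trans (le_max_left _ _)
    exact_mod_cast this
  -- k
  obtain ⟨hk1, hk2⟩ := hY0 D hDY0 hDS
  obtain ⟨k, hk⟩ : ∃ k : ℕ, k = kk D := ⟨_, rfl⟩
  rw [← hk] at hk1 hk2
  obtain ⟨w, hw⟩ : ∃ w : ℝ, w = ww c1 α β Δ := ⟨_, rfl⟩
  rw [← hw] at hw8 hwfin
  have hw0 : 0 ≤ w := by rw [hw]; exact ww_nonneg h1 hα0 Δ
  have hΔα : 0 < (Δ : ℝ) ^ α := Real.rpow_pos_of_pos hΔp _
  have hΔβ : 0 < (Δ : ℝ) ^ (β - 1) := Real.rpow_pos_of_pos hΔp _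
  have hk0 : 0 < c1 * (D / Real.log D) := by positivity
  have hkp : (0 : ℝ) < k := lt_of_lt_of_le hk0 hk1
  have hkinv : 1 / (k : ℝ) ≤ Real.log Δ / (c1 * (Δ : ℝ) ^ α) := by
    calc 1 / (k : ℝ) ≤ 1 / (c1 * (D / Real.log D)) := one_div_le_one_div_of_le hk0 hk1
      _ = Real.log D / (c1 * D) := by field_simp
      _ ≤ Real.log Δ / (c1 * D) := div_le_div_of_nonneg_right hlogD2 (by positivity)
      _ ≤ Real.log Δ / (c1 * (Δ : ℝ) ^ α) :=
          div_le_div_of_nonneg_left hlogΔ.le (by positivity)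
            (mul_le_mul_of_nonneg_left (hylo.trans hDy) h1.le)
  have hkq : (k : ℝ) / q ≤ 2 / α * (Δ : ℝ) ^ (β - 1) := by
    have hq' : 0 < c3 * (Δ / Real.log Δ) := by positivity
    calc (k : ℝ) / q ≤ (c2 * (D / Real.log D)) / (c3 * (Δ / Real.log Δ)) :=
          div_le_div₀ (by positivity) hk2 hq' hq1
      _ ≤ (c3 * (D / Real.log D)) / (c3 * (Δ / Real.log Δ)) := by
          refine div_le_div_of_nonneg_right ?_ hq'.le
          exact mul_le_mul_of_nonneg_right h23.le (by positivity)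
      _ = (D / Δ) * (Real.log Δ / Real.log D) := by field_simp
      _ ≤ (2 * (Δ : ℝ) ^ (β - 1)) * (1 / α) := by
          refine mul_le_mul hDΔ ?_ (by positivity) (by positivity)
          rw [div_le_div_iff₀ hlogD0 hα0]; linarith
      _ = 2 / α * (Δ : ℝ) ^ (β - 1) := by ring
  have hwsum : 1 / (k : ℝ) + (k : ℝ) / q + 1 / Δ ≤ w := by
    rw [hw]; unfold ww; linarith
  have h1Δ : 0 < 1 / (Δ : ℝ) := by positivity
  have hkq0 : 0 < (k : ℝ) / q := by positivity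
  have hki0 : 0 < 1 / (k : ℝ) := by positivity
  have hk8 : (8 : ℝ) ≤ k := by
    have h2 : 1 / (k : ℝ) ≤ 1 / 8 := by linarith
    rw [div_le_div_iff₀ hkp (by norm_num)] at h2
    linarith
  have hkN : 2 ≤ k := by
    have : 8 ≤ k := by exact_mod_cast hk8
    omega
  have hkposN : 0 < k := by omega
  -- s
  obtain ⟨s, hs⟩ : ∃ s : ℕ, s = q / k := ⟨_, rfl⟩
  have hskq : s * k ≤ q := by rw [hs]; exact Nat.div_mul_le_self q k
  have hskR : (s : ℝ) * k ≤ q := by exact_mod_cast hskq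
  have hqsk : (q : ℝ) < (s + 1) * k := by
    have : q < (s + 1) * k := by
      rw [hs]
      have := Nat.lt_mul_div_succ q hkposN
      rwa [Nat.mul_comm] at this
    exact_mod_cast this
  -- s D ≥ (1 + 2 e) Δ
  have hkD : (k : ℝ) * ((1 + 4 * e) * Δ) ≤ D * q := by
    have h2 : (k : ℝ) * Real.log D ≤ c2 * D := by
      rw [mul_div_assoc', le_div_iff₀ hlogD0] at hk2
      exact hk2
    have h3 : (k : ℝ) * (l * (Δ / q)) ≤ c2 * D :=
      (mul_le_mul_of_nonneg_left hlogD hkp.le).trans h2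
    rw [hle] at h3
    have h4 : (k : ℝ) * ((1 + 4 * e) * c2 * (Δ / q)) = c2 * (k * ((1 + 4 * e) * Δ) / q) := by
      field_simp
    rw [h4] at h3
    have h5 := le_of_mul_le_mul_left h3 hc2
    rwa [div_le_iff₀ hq0] at h5
  have hsD : (1 + 2 * e) * Δ ≤ s * D := by
    have h2 : (1 + 4 * e) * Δ ≤ (s + 1) * D := by
      have h3 : (k : ℝ) * ((1 + 4 * e) * Δ) ≤ k * ((s + 1) * D) := by
        calc (k : ℝ) * ((1 + 4 * e) * Δ) ≤ D * q := hkD
          _ ≤ D * ((s + 1) * k) := mul_le_mul_of_nonneg_left hqsk.le hD0.le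
          _ = k * ((s + 1) * D) := by ring
      exact le_of_mul_le_mul_left h3 hkp
    have h4 : (D : ℝ) ≤ 2 * e * Δ := hDτ.trans (mul_le_mul_of_nonneg_right hτ1 hΔp.le)
    have h5 : ((s : ℝ) + 1) * D = s * D + D := by ring
    have h6 : (1 + 4 * e) * (Δ : ℝ) = (1 + 2 * e) * Δ + 2 * e * Δ := by ring
    linarith
  have hs0 : (0 : ℝ) < s := by
    by_contra h
    have h2 : (s : ℝ) ≤ 0 := not_lt.1 h
    have h3 : (s : ℝ) * D ≤ 0 := mul_nonpos_of_nonpos_of_nonneg h2 hD0.le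
    have h4 : 0 < (1 + 2 * e) * (Δ : ℝ) := by positivity
    linarith
  have hs1 : 1 ≤ s := by
    have : 0 < s := by exact_mod_cast hs0
    omega
  have hΔs : (Δ : ℝ) / s ≤ D / (1 + 2 * e) := by
    rw [div_le_div_iff₀ hs0 (by linarith)]; linarith
  -- θ
  have hth0 : 0 < th Δ := lt_of_lt_of_le (by norm_num) (th_pos Δ)
  have hkm1 : 0 < ((k : ℝ) - 1) * (th Δ * s) := by
    apply mul_pos (by linarith) (mul_pos hth0 hs0)
  have hwθ : 1 - w ≤ th Δ := by
    have h2 : 1 / (2 * ((Δ : ℝ) + 1)) ≤ 1 / Δ := by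
      apply one_div_le_one_div_of_le hΔp; linarith
    unfold th
    linarith
  have hsw : (s : ℝ) + k ≤ w * q := by
    have h2 : (s : ℝ) ≤ 1 / k * q := by
      rw [one_div, ← div_eq_inv_mul, le_div_iff₀ hkp]; exact hskR
    have h3 : (k : ℝ) = k / q * q := by field_simp
    have h4 : (1 / (k : ℝ) + (k : ℝ) / q) * q ≤ w * q :=
      mul_le_mul_of_nonneg_right (by linarith) hq0.le
    have h5 : (1 / (k : ℝ) + (k : ℝ) / q) * q = 1 / k * q + k / q * q := by ring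
    linarith
  have hsk1 : (1 - w) * q ≤ s * ((k : ℝ) - 1) := by
    have e1 : ((s : ℝ) + 1) * k = s * ((k : ℝ) - 1) + (s + k) := by ring
    have e2 : (1 - w) * (q : ℝ) = q - w * q := by ring
    linarith
  have hsk1' : (1 - w) * q ≤ s * (k : ℝ) := by
    have e1 : (s : ℝ) * ((k : ℝ) - 1) = s * k - s := by ring
    linarith
  have h1w : 0 < 1 - w := by linarith
  refine ⟨s, D, hDS, hs1, ?_⟩
  rw [← hk]
  refine ⟨hkN, hskq, hDY, ?_, ?_, ?_⟩
  · -- Param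
    refine ⟨1 + e, by linarith, ?_⟩
    have h2 : ((s : ℝ) - 1 + (1 + e)) / s ≤ Real.exp (e / s) := by
      have h3 : ((s : ℝ) - 1 + (1 + e)) / s = e / s + 1 := by field_simp; ring
      rw [h3]; exact Real.add_one_le_exp _
    have h2' : 0 ≤ ((s : ℝ) - 1 + (1 + e)) / s := by
      apply div_nonneg _ hs0.le; linarith
    have h3 : (((s : ℝ) - 1 + (1 + e)) / s) ^ Δ ≤ Real.exp (e * (D / (1 + 2 * e))) := by
      calc (((s : ℝ) - 1 + (1 + e)) / s) ^ Δ ≤ Real.exp (e / s) ^ Δ := pow_le_pow_left₀ h2' h2 Δ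
        _ = Real.exp (Δ * (e / s)) := by rw [← Real.exp_nat_mul]
        _ ≤ Real.exp (e * (D / (1 + 2 * e))) := by
            rw [Real.exp_le_exp]
            have h4 : (Δ : ℝ) * (e / s) = e * (Δ / s) := by ring
            rw [h4]
            exact mul_le_mul_of_nonneg_left hΔs he0.le
    have h4 : e / (1 + e) ≤ Real.log (1 + e) := by
      have := Real.one_sub_inv_le_log_of_pos (show 0 < 1 + e by linarith)
      have h5 : 1 - (1 + e)⁻¹ = e / (1 + e) := by field_simp; ring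
      linarith
    have h5 : Real.exp (D * (e / (1 + e))) ≤ (1 + e) ^ (D + 1) := by
      have h6 : (1 + e) ^ (D + 1) = Real.exp (((D + 1 : ℕ) : ℝ) * Real.log (1 + e)) := by
        rw [Real.exp_nat_mul, Real.exp_log (by linarith)]
      rw [h6, Real.exp_le_exp]
      push_cast
      calc (D : ℝ) * (e / (1 + e)) ≤ (D + 1) * (e / (1 + e)) :=
            mul_le_mul_of_nonneg_right (by linarith) (by positivity)
        _ ≤ (D + 1) * Real.log (1 + e) := mul_le_mul_of_nonneg_left h4 (by positivity)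
    have h6 : κ * D + e * (D / (1 + 2 * e)) = D * (e / (1 + e)) := by
      rw [hκ]; field_simp; ring
    calc 4 * ((Δ : ℝ) + 1) ^ 2 * (((s : ℝ) - 1 + (1 + e)) / s) ^ Δ
        ≤ Real.exp (κ * (Δ : ℝ) ^ α) * Real.exp (e * (D / (1 + 2 * e))) :=
          mul_le_mul F3 h3 (pow_nonneg h2' _) (Real.exp_pos _).le
      _ ≤ Real.exp (κ * D) * Real.exp (e * (D / (1 + 2 * e))) := by
          refine mul_le_mul_of_nonneg_right ?_ (Real.exp_pos _).le
          rw [Real.exp_le_exp]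
          exact mul_le_mul_of_nonneg_left (hylo.trans hDy) hκ0.le
      _ = Real.exp (D * (e / (1 + e))) := by rw [← Real.exp_add, h6]
      _ ≤ _ := h5
  · apply one_div_le_one_div_of_le hkm1
    have h2 : th Δ ≤ 1 := th_lt Δ
    calc ((k : ℝ) - 1) * (th Δ * s) ≤ ((k : ℝ) - 1) * (1 * s) := by
          refine mul_le_mul_of_nonneg_left ?_ (by linarith)
          exact mul_le_mul_of_nonneg_right h2 hs0.le
      _ = s * (k : ℝ) - s := by ring
      _ ≤ q := by linarith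
  · -- the final inequality
    have hlow : (1 - w) ^ 2 * q ≤ ((k : ℝ) - 1) * (th Δ * s) := by
      calc (1 - w) ^ 2 * q = (1 - w) * ((1 - w) * q) := by ring
        _ ≤ th Δ * ((1 - w) * q) := mul_le_mul_of_nonneg_right hwθ (by positivity)
        _ ≤ th Δ * (s * ((k : ℝ) - 1)) := mul_le_mul_of_nonneg_left hsk1 hth0.le
        _ = ((k : ℝ) - 1) * (th Δ * s) := by ring
    have hE : 1 / (((k : ℝ) - 1) * (th Δ * s)) - 1 / q ≤ 4 * w / q := by
      have h2 : 1 / (((k : ℝ) - 1) * (th Δ * s)) ≤ 1 / ((1 - w) ^ 2 * q) :=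
        one_div_le_one_div_of_le (by positivity) hlow
      have h3 : 1 / ((1 - w) ^ 2 * (q : ℝ)) ≤ (1 + 4 * w) / q := by
        rw [div_le_div_iff₀ (by positivity) hq0]
        have h4 := aux_w hw0 hw8
        calc 1 * (q : ℝ) ≤ ((1 + 4 * w) * (1 - w) ^ 2) * q :=
              mul_le_mul_of_nonneg_right h4 hq0.le
          _ = (1 + 4 * w) * ((1 - w) ^ 2 * q) := by ring
      have h5 : (1 + 4 * w) / (q : ℝ) = 1 / q + 4 * w / q := by ring
      linarith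
    have hE2 : (Δ : ℝ) / 2 * (1 / (((k : ℝ) - 1) * (th Δ * s)) - 1 / q) ≤
        2 * (w * Real.log Δ) / c3 := by
      calc (Δ : ℝ) / 2 * (1 / (((k : ℝ) - 1) * (th Δ * s)) - 1 / q)
          ≤ (Δ : ℝ) / 2 * (4 * w / q) := mul_le_mul_of_nonneg_left hE (by positivity)
        _ = 2 * w * (Δ / q) := by ring
        _ ≤ 2 * w * (Real.log Δ / c3) := mul_le_mul_of_nonneg_left hzhi (by positivity)
        _ = 2 * (w * Real.log Δ) / c3 := by ring
    calc Real.exp (Δ / 2 * (1 / (((k : ℝ) - 1) * (th Δ * s)) - 1 / q)) * ((1 - η) * q)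
        ≤ Real.exp (2 * (w * Real.log Δ) / c3) * ((1 - η) * q) := by
          refine mul_le_mul_of_nonneg_right (Real.exp_le_exp.2 hE2) ?_
          exact mul_nonneg (by linarith) hq0.le
      _ = (Real.exp (2 * (w * Real.log Δ) / c3) * (1 - η)) * q := by ring
      _ ≤ ((1 - w) ^ 2 * (1 - η / 2)) * q := mul_le_mul_of_nonneg_right hwfin hq0.le
      _ = (1 - η / 2) * ((1 - w) * ((1 - w) * q)) := by ring
      _ ≤ (1 - η / 2) * (th Δ * (s * k)) := by
          refine mul_le_mul_of_nonneg_left ?_ (by linarith)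
          exact mul_le_mul hwθ hsk1' (by positivity) hth0.le
      _ = th Δ * s * ((1 - η / 2) * k) := by ring

end Pool.Agent.Q208.PC
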