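import Pool.Agent.Q208.PC.Greedy
import Pool.Agent.Q208.PC.Scale

/-!
# Existence of colourings with `(c + o(1)) Δ / log Δ` colours gives many colourings
-/

set_option autoImplicit false
set_option maxHeartbeats 4000000

open Filter Topology Finset

namespace Pool.Agent.Q208.PC

/-- the numbers -/
theorem scaleE {c ε d : ℝ} (hc : 0 ≤ c) (hε : 0 < ε) (hd : 0 < d) (hd1 : d ≤ 1 / 4)
    (hd2 : d ≤ ε / (4 * (c + ε))) (Y : ℕ) :
    ∃ Δ0 : ℕ, ∀ Δ : ℕ, Δ0 ≤ Δ → 1 ≤ Δ ∧ ∀ q : ℕ, (c + ε) * (Δ / Real.log Δ) ≤ q →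
      1 ≤ q ∧ 2 ≤ (q : ℝ) ^ d ∧
      ((q : ℝ) ≤ 2 * Δ → ∃ s D k : ℕ, 1 ≤ s ∧ s * k ≤ q ∧ Y ≤ D ∧ Param s D Δ ∧
        (c + d * (c + ε) / 16) * (D / Real.log D) ≤ k ∧
        (q : ℝ) ^ (1 - d) * Real.exp (-(c * (Δ / q))) ≤ th Δ * s) := by
  have hcε : 0 < c + ε := by linarith
  obtain ⟨e, he⟩ : ∃ e, e = d / 24 := ⟨_, rfl⟩
  have he0 : 0 < e := by rw [he]; linarith
  obtain ⟨κ, hκ⟩ : ∃ κ, κ = e ^ 2 / ((1 + e) * (1 + 2 * e)) := ⟨_, rfl⟩
  have hκ0 : 0 < κ := by rw [hκ]; positivity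
  obtain ⟨ε1, hε1⟩ : ∃ ε1, ε1 = d * (c + ε) / 16 := ⟨_, rfl⟩
  have hε10 : 0 < ε1 := by rw [hε1]; positivity
  have hd20 : 0 < d / 2 := by linarith
  have t1 : ∀ᶠ n : ℕ in atTop, max (max (Y : ℝ) 6) (max 3 (1 / e)) ≤ (n : ℝ) ^ (d / 2) :=
    ((tendsto_rpow_atTop hd20).comp tendsto_natCast_atTop_atTop).eventually_ge_atTop _
  have t2 : ∀ᶠ n : ℕ in atTop, Real.log n ≤ (c + ε) * (n : ℝ) ^ d := by
    have h := (isLittleO_log_rpow_atTop hd).bound hcε
    have h2 : ∀ᶠ x : ℝ in atTop, Real.log x ≤ (c + ε) * x ^ d := by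
      filter_upwards [h, eventually_gt_atTop 1] with x hx hx1
      rw [Real.norm_eq_abs, Real.norm_eq_abs,
        abs_of_nonneg (Real.rpow_nonneg (by linarith : (0 : ℝ) ≤ x) _)] at hx
      exact (le_abs_self _).trans hx
    exact tendsto_natCast_atTop_atTop.eventually h2
  have hdd : 0 < (1 - d) * d := mul_pos (by linarith) hd
  have t3 : ∀ᶠ n : ℕ in atTop, 24 / d ≤ (n : ℝ) ^ ((1 - d) * d) :=
    ((tendsto_rpow_atTop hdd).comp tendsto_natCast_atTop_atTop).eventually_ge_atTop _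
  have t4 : ∀ᶠ n : ℕ in atTop, 4 / d ≤ Real.log n :=
    (Real.tendsto_log_atTop.comp tendsto_natCast_atTop_atTop).eventually_ge_atTop _
  obtain ⟨Δ0, hΔ0⟩ := eventually_atTop.1 ((t1.and t2).and ((t3.and t4).and
    ((ev_exp hκ0 hd20).and (eventually_ge_atTop 3))))
  refine ⟨Δ0, fun Δ hΔ => ?_⟩
  obtain ⟨⟨F1, F2⟩, ⟨F3, F4⟩, F5, F6⟩ := hΔ0 Δ hΔ
  refine ⟨by omega, fun q hq => ?_⟩
  have hΔR : (3 : ℝ) ≤ Δ := by exact_mod_cast F6
  have hΔp : (0 : ℝ) < Δ := by linarith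
  obtain ⟨L, hL⟩ : ∃ L, L = Real.log Δ := ⟨_, rfl⟩
  rw [← hL] at F2 F4 hq
  have hL16 : 16 ≤ L := by
    refine le_trans ?_ F4
    rw [le_div_iff₀ hd]; linarith
  have hL0 : 0 < L := by linarith
  have hdL : 4 ≤ d * L := by
    rw [div_le_iff₀ hd] at F4; linarith
  have hq0 : (0 : ℝ) < q := lt_of_lt_of_le (by positivity) hq
  have hqlo : (Δ : ℝ) ^ (1 - d) ≤ q := by
    refine le_trans ?_ hq
    rw [mul_div_assoc', le_div_iff₀ hL0]
    have h2 : (Δ : ℝ) ^ (1 - d) * (Δ : ℝ) ^ d = Δ := by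
      rw [← Real.rpow_add hΔp, sub_add_cancel, Real.rpow_one]
    calc (Δ : ℝ) ^ (1 - d) * L ≤ (Δ : ℝ) ^ (1 - d) * ((c + ε) * (Δ : ℝ) ^ d) :=
          mul_le_mul_of_nonneg_left F2 (Real.rpow_nonneg hΔp.le _)
      _ = (c + ε) * ((Δ : ℝ) ^ (1 - d) * (Δ : ℝ) ^ d) := by ring
      _ = (c + ε) * Δ := by rw [h2]
  have hlogq : (1 - d) * L ≤ Real.log q := by
    have h2 := Real.log_le_log (Real.rpow_pos_of_pos hΔp _) hqlo
    rwa [Real.log_rpow hΔp, ← hL] at h2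
  have hq1R : (1 : ℝ) ≤ q := by
    refine le_trans ?_ hqlo
    exact Real.one_le_rpow (by linarith) (by linarith)
  have hq1 : 1 ≤ q := by exact_mod_cast hq1R
  have hqd : 24 / d ≤ (q : ℝ) ^ d := by
    refine F3.trans ?_
    rw [Real.rpow_mul hΔp.le]
    exact Real.rpow_le_rpow (Real.rpow_nonneg hΔp.le _) hqlo hd.le
  refine ⟨hq1, ?_, fun hq2 => ?_⟩
  · refine le_trans ?_ hqd
    rw [le_div_iff₀ hd]; linarith
  -- the case `q ≤ 2 Δ`
  have hlogq2 : Real.log q ≤ L + Real.log 2 := by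
    have h2 := Real.log_le_log hq0 hq2
    rw [Real.log_mul (by norm_num) hΔp.ne', ← hL] at h2
    linarith
  obtain ⟨u, hu⟩ : ∃ u, u = (Δ : ℝ) / q := ⟨_, rfl⟩
  have hu0 : 0 < u := by rw [hu]; positivity
  have huL : (c + ε) * u ≤ L := by
    rw [hu]
    rw [mul_div_assoc', div_le_iff₀ hL0] at hq
    rw [mul_div_assoc', div_le_iff₀ hq0]
    linarith
  have hcu0 : 0 ≤ c * u := by positivity
  have hcu : c * u ≤ (1 - 4 * d) * L := by
    have h2 : d * (4 * (c + ε)) ≤ ε := by rwa [le_div_iff₀ (by positivity)] at hd2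
    -- c ≤ (1 - 4 d) (c + ε)
    have h3 : c ≤ (1 - 4 * d) * (c + ε) := by linarith
    calc c * u ≤ ((1 - 4 * d) * (c + ε)) * u := mul_le_mul_of_nonneg_right h3 hu0.le
      _ = (1 - 4 * d) * ((c + ε) * u) := by ring
      _ ≤ (1 - 4 * d) * L := mul_le_mul_of_nonneg_left huL (by linarith)
  -- T
  obtain ⟨T, hT⟩ : ∃ T, T = (q : ℝ) ^ (1 - d) * Real.exp (-(c * (Δ / q))) := ⟨_, rfl⟩
  have hTe : T = Real.exp ((1 - d) * Real.log q - c * u) := by
    rw [hT, Real.rpow_def_of_pos hq0, ← Real.exp_add, ← hu]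
    congr 1; ring
  have hT1 : 1 ≤ T := by
    rw [hTe]
    apply Real.one_le_exp
    have h2 : (1 - d) * ((1 - d) * L) ≤ (1 - d) * Real.log q :=
      mul_le_mul_of_nonneg_left hlogq (by linarith)
    have h3 : (1 - 4 * d) * L ≤ (1 - d) * ((1 - d) * L) := by
      have h4 : (1 - d) * ((1 - d) * L) = (1 - 2 * d + d * d) * L := by ring
      rw [h4]
      refine mul_le_mul_of_nonneg_right ?_ hL0.le
      have := mul_pos hd hd
      linarith
    linarith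
  have hT0 : 0 < T := by linarith
  have hTq : T ≤ (q : ℝ) ^ (1 - d) := by
    rw [hT]
    have h2 : Real.exp (-(c * (Δ / q))) ≤ 1 := by
      rw [Real.exp_le_one_iff, ← hu]; linarith
    calc (q : ℝ) ^ (1 - d) * Real.exp (-(c * (Δ / q))) ≤ (q : ℝ) ^ (1 - d) * 1 :=
          mul_le_mul_of_nonneg_left h2 (Real.rpow_nonneg hq0.le _)
      _ = _ := mul_one _
  -- s
  obtain ⟨s, hs⟩ : ∃ s : ℕ, s = ⌈2 * T⌉₊ := ⟨_, rfl⟩
  have hsT : 2 * T ≤ s := by rw [hs]; exact Nat.le_ceil _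
  have hsT3 : (s : ℝ) ≤ 3 * T := by
    have : (s : ℝ) < 2 * T + 1 := by rw [hs]; exact Nat.ceil_lt_add_one (by linarith)
    linarith
  have hs0 : (0 : ℝ) < s := by linarith
  have hs1 : 1 ≤ s := by
    have : 0 < s := by exact_mod_cast hs0
    omega
  have hsΔ : (s : ℝ) ≤ (Δ : ℝ) ^ (1 - d / 2) := by
    have h2 : (q : ℝ) ^ (1 - d) ≤ 2 * (Δ : ℝ) ^ (1 - d) := by
      calc (q : ℝ) ^ (1 - d) ≤ (2 * (Δ : ℝ)) ^ (1 - d) :=
            Real.rpow_le_rpow hq0.le hq2 (by linarith)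
        _ = (2 : ℝ) ^ (1 - d) * (Δ : ℝ) ^ (1 - d) := Real.mul_rpow (by norm_num) hΔp.le
        _ ≤ 2 * (Δ : ℝ) ^ (1 - d) := by
            refine mul_le_mul_of_nonneg_right ?_ (Real.rpow_nonneg hΔp.le _)
            calc (2 : ℝ) ^ (1 - d) ≤ (2 : ℝ) ^ (1 : ℝ) :=
                  Real.rpow_le_rpow_of_exponent_le (by norm_num) (by linarith)
              _ = 2 := Real.rpow_one 2
    have h3 : (6 : ℝ) ≤ (Δ : ℝ) ^ (d / 2) :=
      ((le_max_right _ _).trans (le_max_left _ _)).trans F1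
    calc (s : ℝ) ≤ 3 * T := hsT3
      _ ≤ 3 * (2 * (Δ : ℝ) ^ (1 - d)) := by linarith
      _ = 6 * (Δ : ℝ) ^ (1 - d) := by ring
      _ ≤ (Δ : ℝ) ^ (d / 2) * (Δ : ℝ) ^ (1 - d) :=
          mul_le_mul_of_nonneg_right h3 (Real.rpow_nonneg hΔp.le _)
      _ = (Δ : ℝ) ^ (1 - d / 2) := by rw [← Real.rpow_add hΔp]; congr 1; ring
  have hΔs : (Δ : ℝ) ^ (d / 2) ≤ Δ / s := by
    rw [le_div_iff₀ hs0]
    calc (Δ : ℝ) ^ (d / 2) * s ≤ (Δ : ℝ) ^ (d / 2) * (Δ : ℝ) ^ (1 - d / 2) :=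
          mul_le_mul_of_nonneg_left hsΔ (Real.rpow_nonneg hΔp.le _)
      _ = Δ := by rw [← Real.rpow_add hΔp, add_sub_cancel, Real.rpow_one]
  have hΔs0 : (0 : ℝ) < Δ / s := by positivity
  have heΔs : 1 ≤ e * (Δ / s) := by
    have h2 : 1 / e ≤ (Δ : ℝ) / s :=
      (((le_max_right _ _).trans (le_max_right _ _)).trans F1).trans hΔs
    rw [div_le_iff₀ he0] at h2
    linarith
  -- D
  obtain ⟨D, hD⟩ : ∃ D : ℕ, D = ⌈(1 + 2 * e) * (Δ / s)⌉₊ := ⟨_, rfl⟩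
  have hDlo : (1 + 2 * e) * (Δ / s) ≤ D := by rw [hD]; exact Nat.le_ceil _
  have hDhi : (D : ℝ) ≤ (1 + 3 * e) * (Δ / s) := by
    have h2 : (D : ℝ) < (1 + 2 * e) * (Δ / s) + 1 := by
      rw [hD]; exact Nat.ceil_lt_add_one (by positivity)
    have h3 : (1 + 3 * e) * ((Δ : ℝ) / s) = (1 + 2 * e) * (Δ / s) + e * (Δ / s) := by ring
    linarith
  have hDΔs : (Δ : ℝ) / s ≤ D := by
    have h3 : (1 + 2 * e) * ((Δ : ℝ) / s) = Δ / s + 2 * (e * (Δ / s)) := by ring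
    linarith
  have hD0 : (0 : ℝ) < D := by linarith
  have hDY : Y ≤ D := by
    have h2 : (Y : ℝ) ≤ D :=
      ((((le_max_left _ _).trans (le_max_left _ _)).trans F1).trans hΔs).trans hDΔs
    exact_mod_cast h2
  have hsD : (1 + 2 * e) * Δ ≤ s * D := by
    have h2 := mul_le_mul_of_nonneg_left hDlo hs0.le
    have h3 : (s : ℝ) * ((1 + 2 * e) * (Δ / s)) = (1 + 2 * e) * Δ := by field_simp
    linarith
  have hpar : Param s D Δ := by
    refine param_of he0 hs1 hsD ?_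
    refine F5.trans ?_
    rw [Real.exp_le_exp, ← hκ]
    exact mul_le_mul_of_nonneg_left (hΔs.trans hDΔs) hκ0.le
  -- log D
  have hlogD : d * L - 2 + c * u ≤ Real.log D := by
    have h2 : Real.log (Δ / s) ≤ Real.log D := Real.log_le_log hΔs0 hDΔs
    rw [Real.log_div hΔp.ne' hs0.ne', ← hL] at h2
    have h3 : Real.log s ≤ Real.log 3 + ((1 - d) * Real.log q - c * u) := by
      have h4 := Real.log_le_log hs0 hsT3
      rw [Real.log_mul (by norm_num) hT0.ne', hTe, Real.log_exp] at h4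
      exact h4
    have h5 : (1 - d) * Real.log q ≤ (1 - d) * (L + Real.log 2) :=
      mul_le_mul_of_nonneg_left hlogq2 (by linarith)
    have h6 : Real.log 3 + Real.log 2 ≤ 2 := by
      rw [← Real.log_mul (by norm_num) (by norm_num), Real.log_le_iff_le_exp (by norm_num)]
      have h7 := Real.exp_one_gt_d9
      have h8 : Real.exp 2 = Real.exp 1 * Real.exp 1 := by rw [← Real.exp_add]; norm_num
      rw [h8]
      nlinarith
    have h7 : 0 ≤ Real.log 2 := Real.log_nonneg (by norm_num)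
    have h8 : (1 - d) * (L + Real.log 2) = L - d * L + Real.log 2 - d * Real.log 2 := by ring
    have h9 : 0 ≤ d * Real.log 2 := by positivity
    linarith
  have hM0 : 0 < d * L - 2 + c * u := by linarith
  have hlogD0 : 0 < Real.log D := by linarith
  -- k
  obtain ⟨k, hk⟩ : ∃ k : ℕ, k = q / s := ⟨_, rfl⟩
  have hskq : s * k ≤ q := by rw [hk]; exact Nat.mul_div_le q s
  have hqsk : (q : ℝ) < s * (k + 1) := by
    have : q < s * (k + 1) := by rw [hk]; exact Nat.lt_mul_div_succ q (by omega)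
    exact_mod_cast this
  have hsq : (s : ℝ) ≤ d / 8 * q := by
    have h2 : (q : ℝ) ^ (1 - d) * (q : ℝ) ^ d = q := by
      rw [← Real.rpow_add hq0, sub_add_cancel, Real.rpow_one]
    have h3 : 24 ≤ d * (q : ℝ) ^ d := by
      rw [div_le_iff₀ hd] at hqd; linarith
    calc (s : ℝ) ≤ 3 * (q : ℝ) ^ (1 - d) := by linarith
      _ = (q : ℝ) ^ (1 - d) * 24 / 8 := by ring
      _ ≤ (q : ℝ) ^ (1 - d) * (d * (q : ℝ) ^ d) / 8 := by
          refine div_le_div_of_nonneg_right ?_ (by norm_num)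
          exact mul_le_mul_of_nonneg_left h3 (Real.rpow_nonneg hq0.le _)
      _ = d / 8 * ((q : ℝ) ^ (1 - d) * (q : ℝ) ^ d) := by ring
      _ = d / 8 * q := by rw [h2]
  refine ⟨s, D, k, hs1, hskq, hDY, hpar, ?_, ?_⟩
  · rw [← hε1, mul_div_assoc', div_le_iff₀ hlogD0]
    -- (c + ε1) D ≤ k log D
    have key : (c + ε1) * (1 + 3 * e) * u ≤ (1 - d / 8) * Real.log D := by
      have h2 : (3 * e * c + ε1 * (1 + 3 * e)) * u ≤ d / 4 * L := by
        have h3 : 3 * e * c + ε1 * (1 + 3 * e) ≤ d / 4 * (c + ε) := by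
          have h4 : 1 + 3 * e ≤ 2 := by rw [he]; linarith
          have h5 : ε1 * (1 + 3 * e) ≤ ε1 * 2 := mul_le_mul_of_nonneg_left h4 hε10.le
          have h6 : 3 * e * c = d / 8 * c := by rw [he]; ring
          have h7 : 0 < d * ε := mul_pos hd hε
          rw [h6]
          have h8 : ε1 * 2 = d / 8 * (c + ε) := by rw [hε1]; ring
          have h9 : d / 4 * (c + ε) = d / 8 * (c + ε) + d / 8 * c + d * ε / 8 := by ring
          linarith
        calc (3 * e * c + ε1 * (1 + 3 * e)) * u ≤ (d / 4 * (c + ε)) * u :=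
              mul_le_mul_of_nonneg_right h3 hu0.le
          _ = d / 4 * ((c + ε) * u) := by ring
          _ ≤ d / 4 * L := mul_le_mul_of_nonneg_left huL (by linarith)
      have h3 : (c + ε1) * (1 + 3 * e) * u = c * u + (3 * e * c + ε1 * (1 + 3 * e)) * u := by ring
      have h4 : (1 - d / 8) * (d * L - 2 + c * u) ≤ (1 - d / 8) * Real.log D :=
        mul_le_mul_of_nonneg_left hlogD (by linarith)
      have h5 : d * L - 2 + c * u ≤ 2 * L := by
        have h6 : d * L ≤ 1 / 4 * L := mul_le_mul_of_nonneg_right hd1 hL0.le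
        have h7 : (1 - 4 * d) * L ≤ 1 * L := mul_le_mul_of_nonneg_right (by linarith) hL0.le
        linarith
      have h6 : d / 8 * (d * L - 2 + c * u) ≤ d / 8 * (2 * L) :=
        mul_le_mul_of_nonneg_left h5 (by linarith)
      have h7 : (1 - d / 8) * (d * L - 2 + c * u) =
          (d * L - 2 + c * u) - d / 8 * (d * L - 2 + c * u) := by ring
      have h8 : d / 8 * (2 * L) = d * L / 4 := by ring
      have h9 : d / 4 * L = d * L / 4 := by ring
      rw [h3]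
      linarith
    have h2 : ((c + ε1) * D) * s ≤ (k * Real.log D) * s := by
      have h3 : (D : ℝ) * s ≤ (1 + 3 * e) * Δ := by
        have := mul_le_mul_of_nonneg_right hDhi hs0.le
        have h4 : (1 + 3 * e) * ((Δ : ℝ) / s) * s = (1 + 3 * e) * Δ := by field_simp
        linarith
      have h4 : (Δ : ℝ) = u * q := by rw [hu]; field_simp
      have h5 : (1 - d / 8) * (q : ℝ) ≤ k * s := by
        have h6 : (s : ℝ) * (k + 1) = k * s + s := by ring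
        have h7 : (1 - d / 8) * (q : ℝ) = q - d / 8 * q := by ring
        linarith
      calc ((c + ε1) * D) * s = (c + ε1) * (D * s) := by ring
        _ ≤ (c + ε1) * ((1 + 3 * e) * Δ) := mul_le_mul_of_nonneg_left h3 (by linarith)
        _ = ((c + ε1) * (1 + 3 * e) * u) * q := by rw [h4]; ring
        _ ≤ ((1 - d / 8) * Real.log D) * q := mul_le_mul_of_nonneg_right key hq0.le
        _ = ((1 - d / 8) * q) * Real.log D := by ring
        _ ≤ (k * s) * Real.log D := mul_le_mul_of_nonneg_right h5 hlogD0.le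
        _ = (k * Real.log D) * s := by ring
    exact le_of_mul_le_mul_right h2 hs0
  · rw [← hT]
    have h2 := th_pos Δ
    calc T = 1 / 2 * (2 * T) := by ring
      _ ≤ th Δ * s := mul_le_mul h2 hsT (by linarith) (by linarith)

/-- all graphs of the class of maximum degree at most `Δ` can be coloured with
`(c + o(1)) Δ / log Δ` colours -/
def ColAt (P : ∀ V : Type, SimpleGraph V → Prop) (c : ℝ) : Prop :=
  ∀ ε : ℝ, 0 < ε → ∃ Δ0 : ℕ, ∀ Δ : ℕ, Δ0 ≤ Δ → ∀ (V : Type) [Finite V] (G : SimpleGraph V),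
    P V G → (∀ v, deg G v ≤ Δ) → ∀ q : ℕ, (c + ε) * (Δ / Real.log Δ) ≤ q → G.Colorable q

/-- the number of colourings, to first order -/
def CntAt (P : ∀ V : Type, SimpleGraph V → Prop) (c : ℝ) : Prop :=
  ∀ ε δ : ℝ, 0 < ε → 0 < δ → ∃ Δ0 : ℕ, ∀ Δ : ℕ, Δ0 ≤ Δ →
    ∀ (V : Type) [Finite V] (G : SimpleGraph V), P V G → (∀ v, deg G v ≤ Δ) →
      ∀ q : ℕ, (c + ε) * (Δ / Real.log Δ) ≤ q →
        ((q : ℝ) ^ (1 - δ) * Real.exp (-(c * (Δ / q)))) ^ Nat.card V ≤ cc G q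

theorem cnt_of_col {P : ∀ V : Type, SimpleGraph V → Prop}
    (hP : ∀ (V : Type) (G H : SimpleGraph V), H ≤ G → P V G → P V H) {c : ℝ} (hc : 0 ≤ c)
    (h : ColAt P c) : CntAt P c := by
  classical
  intro ε δ hε hδ
  have hcε : 0 < c + ε := by linarith
  obtain ⟨d, hd⟩ : ∃ d, d = min δ (min (1 / 4) (ε / (4 * (c + ε)))) := ⟨_, rfl⟩
  have hd0 : 0 < d := by
    rw [hd]; exact lt_min hδ (lt_min (by norm_num) (by positivity))
  have hdδ : d ≤ δ := by rw [hd]; exact min_le_left _ _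
  have hd1 : d ≤ 1 / 4 := by rw [hd]; exact (min_le_right _ _).trans (min_le_left _ _)
  have hd2 : d ≤ ε / (4 * (c + ε)) := by rw [hd]; exact (min_le_right _ _).trans (min_le_right _ _)
  obtain ⟨Δ1, hΔ1⟩ := h (d * (c + ε) / 16) (by positivity)
  obtain ⟨Δ0, hΔ0⟩ := scaleE hc hε hd0 hd1 hd2 Δ1
  refine ⟨Δ0, fun Δ hΔ V _ G hG hdeg q hq => ?_⟩
  obtain ⟨hΔ1', h2⟩ := hΔ0 Δ hΔ
  obtain ⟨hq1, hqd, h3⟩ := h2 q hq
  have hq1R : (1 : ℝ) ≤ q := by exact_mod_cast hq1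
  have hq0 : (0 : ℝ) < q := by linarith
  have : Fintype V := Fintype.ofFinite V
  have hdeg' : ∀ v, G.degree v ≤ Δ := fun v => by rw [← deg_eq]; exact hdeg v
  rw [Nat.card_eq_fintype_card]
  have hmono : (q : ℝ) ^ (1 - δ) ≤ (q : ℝ) ^ (1 - d) :=
    Real.rpow_le_rpow_of_exponent_le hq1R (by linarith)
  have hbase : 0 ≤ (q : ℝ) ^ (1 - δ) * Real.exp (-(c * (Δ / q))) :=
    mul_nonneg (Real.rpow_nonneg hq0.le _) (Real.exp_pos _).le
  rcases le_total (q : ℝ) (2 * Δ) with hle | hle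
  · obtain ⟨s, D, k, hs1, hskq, hDY, hp, hk, hfin⟩ := h3 hle
    have : NeZero s := ⟨by omega⟩
    have ht := transfer_exist G D hdeg' hp hskq (fun f hf =>
      hΔ1 D hDY V (part G f) (hP V G _ (part_le G f) hG) (fun v => deg_part G D hf v) k hk)
    refine le_trans (pow_le_pow_left₀ hbase ?_ _) ht
    exact le_trans (mul_le_mul_of_nonneg_right hmono (Real.exp_pos _).le) hfin
  · have hΔR : (1 : ℝ) ≤ Δ := by exact_mod_cast hΔ1'
    have hlt : Δ < q := by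
      have : (Δ : ℝ) < q := by linarith
      exact_mod_cast this
    refine le_trans (pow_le_pow_left₀ hbase ?_ _) (greedy G hdeg' hlt)
    have h4 : Real.exp (-(c * ((Δ : ℝ) / q))) ≤ 1 := by
      rw [Real.exp_le_one_iff]
      have : 0 ≤ c * ((Δ : ℝ) / q) := by positivity
      linarith
    have h5 : 2 * (q : ℝ) ^ (1 - d) ≤ q := by
      calc 2 * (q : ℝ) ^ (1 - d) ≤ (q : ℝ) ^ d * (q : ℝ) ^ (1 - d) :=
            mul_le_mul_of_nonneg_right hqd (Real.rpow_nonneg hq0.le _)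
        _ = q := by rw [← Real.rpow_add hq0, add_sub_cancel, Real.rpow_one]
    calc (q : ℝ) ^ (1 - δ) * Real.exp (-(c * (Δ / q))) ≤ (q : ℝ) ^ (1 - d) * 1 :=
          mul_le_mul hmono h4 (Real.exp_pos _).le (Real.rpow_nonneg hq0.le _)
      _ ≤ (q : ℝ) - Δ := by linarith

theorem col_of_cnt {P : ∀ V : Type, SimpleGraph V → Prop} {c : ℝ} (hc : 0 ≤ c)
    (h : CntAt P c) : ColAt P c := by
  intro ε hε
  obtain ⟨Δ0, hΔ0⟩ := h ε 1 hε one_pos
  refine ⟨max Δ0 3, fun Δ hΔ V _ G hG hdeg q hq => ?_⟩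
  have h2 := hΔ0 Δ ((le_max_left _ _).trans hΔ) V G hG hdeg q hq
  have h3 : 3 ≤ Δ := (le_max_right _ _).trans hΔ
  have hΔR : (3 : ℝ) ≤ Δ := by exact_mod_cast h3
  have hlog : 0 < Real.log Δ := Real.log_pos (by linarith)
  have hq0 : (0 : ℝ) < q := lt_of_lt_of_le (by positivity) hq
  have h4 : 0 < ((q : ℝ) ^ (1 - (1 : ℝ)) * Real.exp (-(c * (Δ / q)))) ^ Nat.card V :=
    pow_pos (mul_pos (Real.rpow_pos_of_pos hq0 _) (Real.exp_pos _)) _
  have h5 : 0 < cc G q := lt_of_lt_of_le h4 h2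
  unfold cc at h5
  have h6 : 0 < Nat.card (G.Coloring (Fin q)) := by exact_mod_cast h5
  obtain ⟨⟨C⟩, -⟩ := Nat.card_pos_iff.1 h6
  exact ⟨C⟩

end Pool.Agent.Q208.PC
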