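import Pool.Agent.Q208.PC.High

/-!
# The literal form of Q1
-/

set_option autoImplicit false
set_option maxHeartbeats 4000000

open Filter Topology Finset

namespace Pool.Agent.Q208.PC

/-- Q1: for every `ε > 0` there is a function `f → 0` such that every triangle-free graph of maximum
degree `Δ` satisfies the inequality for all `q ≥ (1/2 + ε) Δ / log Δ` -/
def Q1 : Prop := ∀ ε : ℝ, 0 < ε → ∃ f : ℕ → ℝ, Tendsto f atTop (𝓝 0) ∧
  ∀ (V : Type) [Finite V] (G : SimpleGraph V), G.CliqueFree 3 → ∀ Δ : ℕ, 2 ≤ Δ →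
    (∀ v, deg G v ≤ Δ) → (∃ v, deg G v = Δ) → ∀ q : ℕ, (1 / 2 + ε) * (Δ / Real.log Δ) ≤ q →
      Bound G q (f Δ)

theorem bound_mono {V : Type} [Finite V] {G : SimpleGraph V} {q : ℕ} {a b : ℝ} (hq : 1 ≤ q)
    (hab : a ≤ b) (hb : b ≤ 1) (h : Bound G q a) : Bound G q b := by
  unfold Bound at h ⊢
  have hqR : (1 : ℝ) ≤ q := by exact_mod_cast hq
  have hy0 : 0 ≤ 1 - 1 / (q : ℝ) := by
    have : 1 / (q : ℝ) ≤ 1 := by rw [div_le_one (by linarith)]; exact hqR
    linarith
  refine le_trans ?_ h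
  refine mul_le_mul_of_nonneg_left ?_ (pow_nonneg hy0 _)
  refine pow_le_pow_left₀ (mul_nonneg (by linarith) (by linarith)) ?_ _
  exact mul_le_mul_of_nonneg_right (by linarith) (by linarith)

theorem bound_one {V : Type} [Finite V] {G : SimpleGraph V} {q : ℕ} : Bound G q 1 := by
  unfold Bound
  rcases isEmpty_or_nonempty V with hV | hV
  · have h1 : Nat.card V = 0 := Nat.card_of_isEmpty
    have : IsEmpty G.edgeSet := by
      refine ⟨fun e => ?_⟩
      obtain ⟨e, he⟩ := e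
      induction e using Sym2.ind with
      | _ a b => exact hV.elim a
    have h2 : edges G = 0 := by unfold edges; exact Nat.card_of_isEmpty
    rw [h1, h2, pow_zero, pow_zero, one_mul]
    unfold cc
    have : Nonempty (G.Coloring (Fin q)) :=
      ⟨SimpleGraph.Coloring.mk (fun v => hV.elim v) (fun {v} => hV.elim v)⟩
    have h3 : 0 < Nat.card (G.Coloring (Fin q)) := Nat.card_pos
    exact_mod_cast h3
  · have h1 : Nat.card V ≠ 0 := Nat.card_pos.ne'
    rw [sub_self, zero_mul, zero_pow h1, mul_zero]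
    exact Nat.cast_nonneg _

theorem div_log_mono {a b : ℕ} (ha : 3 ≤ a) (hab : a ≤ b) :
    (a : ℝ) / Real.log a ≤ b / Real.log b := by
  have haR : (3 : ℝ) ≤ a := by exact_mod_cast ha
  have habR : (a : ℝ) ≤ b := by exact_mod_cast hab
  have he := Real.exp_one_lt_d9
  have h1 := Real.log_div_self_antitoneOn (show (a : ℝ) ∈ {x | Real.exp 1 ≤ x} by
    show Real.exp 1 ≤ (a : ℝ); linarith) (show (b : ℝ) ∈ {x | Real.exp 1 ≤ x} by
    show Real.exp 1 ≤ (b : ℝ); linarith) habR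
  have hla : 0 < Real.log a := Real.log_pos (by linarith)
  have hlb : 0 < Real.log b := Real.log_pos (by linarith)
  simp only at h1
  rw [div_le_div_iff₀ (by linarith) (by linarith)] at h1
  rw [div_le_div_iff₀ hla hlb]
  linarith

theorem tend_div_log : Tendsto (fun n : ℕ => (n : ℝ) / Real.log n) atTop atTop := by
  have h1 : Tendsto (fun x : ℝ => x / Real.log x) atTop atTop := by
    have h2 := Real.isLittleO_log_id_atTop.tendsto_div_nhds_zero
    have h3 : Tendsto (fun x : ℝ => (Real.log x / id x)⁻¹) atTop atTop := by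
      refine tendsto_inv_nhdsGT_zero.comp ?_
      refine tendsto_nhdsWithin_iff.2 ⟨h2, ?_⟩
      filter_upwards [eventually_gt_atTop 1] with x hx
      exact div_pos (Real.log_pos hx) (by simp only [id]; linarith)
    refine h3.congr fun x => ?_
    rw [inv_div]; rfl
  exact h1.comp tendsto_natCast_atTop_atTop

theorem q1_iff : Q1 ↔ ∀ ε : ℝ, 0 < ε → From (1 / 2 + ε) := by
  classical
  constructor
  · intro h ε hε η hη0 hη1
    obtain ⟨f, hf, h⟩ := h ε hε
    obtain ⟨N, hN⟩ := eventually_atTop.1 (hf.eventually (gt_mem_nhds hη0))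
    obtain ⟨Δ2, hΔ2⟩ := high hη0 hη1
    obtain ⟨M, hM⟩ : ∃ M, M = max N (max Δ2 3) := ⟨_, rfl⟩
    have hMN : N ≤ M := by rw [hM]; exact le_max_left _ _
    have hM2 : Δ2 ≤ M := by rw [hM]; exact (le_max_left _ _).trans (le_max_right _ _)
    have hM3 : 3 ≤ M := by rw [hM]; exact (le_max_right _ _).trans (le_max_right _ _)
    have hT : Tendsto (fun n : ℕ => (1 / 2 + ε) * ((n : ℝ) / Real.log n)) atTop atTop :=
      tend_div_log.const_mul_atTop (by linarith)
    obtain ⟨Δ0, hΔ0⟩ := eventually_atTop.1 (hT.eventually_ge_atTop (max 1 (2 * (M / Real.log M))))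
    refine ⟨Δ0, fun Δ hΔ V _ G hG hd q hq => ?_⟩
    have hq2 := (hΔ0 Δ hΔ).trans hq
    have hq1 : 1 ≤ q := by
      have : (1 : ℝ) ≤ q := (le_max_left _ _).trans hq2
      exact_mod_cast this
    by_cases hall : ∀ v, deg G v ≤ M
    · exact hΔ2 M hM2 V G hG hall q ((le_max_right _ _).trans hq2)
    · push Not at hall
      obtain ⟨v0, hv0⟩ := hall
      have : Nonempty V := ⟨v0⟩
      obtain ⟨v1, hv1⟩ := Finite.exists_max (fun v => deg G v)
      have h3 : M < deg G v1 := hv0.trans_le (hv1 v0)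
      have h4 := h V G hG (deg G v1) (by omega) hv1 ⟨v1, rfl⟩ q (by
        refine le_trans ?_ hq
        refine mul_le_mul_of_nonneg_left ?_ (by linarith)
        exact div_log_mono (by omega) (hd v1))
      exact bound_mono hq1 (hN _ (by omega)).le hη1.le h4
  · intro h ε hε
    have h2 : ∀ j : ℕ, ∃ N : ℕ, j = 0 ∧ N = 0 ∨ j ≠ 0 ∧ ∀ Δ : ℕ, N ≤ Δ →
        ∀ (V : Type) [Finite V] (G : SimpleGraph V), G.CliqueFree 3 → (∀ v, deg G v ≤ Δ) →
          ∀ q : ℕ, (1 / 2 + ε) * (Δ / Real.log Δ) ≤ q → Bound G q (1 / ((j : ℝ) + 1)) := by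
      intro j
      rcases Nat.eq_zero_or_pos j with hj | hj
      · exact ⟨0, Or.inl ⟨hj, rfl⟩⟩
      · have hjR : (0 : ℝ) < j := by exact_mod_cast hj
        obtain ⟨N, hN⟩ := h ε hε (1 / ((j : ℝ) + 1)) (by positivity) (by
          rw [div_lt_one (by positivity)]; linarith)
        exact ⟨N, Or.inr ⟨hj.ne', hN⟩⟩
    choose N hN using h2
    have hN0 : N 0 = 0 := by
      rcases hN 0 with h3 | h3
      · exact h3.2
      · exact absurd rfl h3.1
    refine ⟨fun Δ => 1 / ((Nat.findGreatest (fun j => N j ≤ Δ) Δ : ℝ) + 1), ?_, ?_⟩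
    · rw [Metric.tendsto_atTop]
      intro e he
      obtain ⟨j, hj⟩ := exists_nat_one_div_lt he
      refine ⟨max (N j) j, fun Δ hΔ => ?_⟩
      have h3 : j ≤ Nat.findGreatest (fun j => N j ≤ Δ) Δ :=
        Nat.le_findGreatest ((le_max_right _ _).trans hΔ) ((le_max_left _ _).trans hΔ)
      rw [Real.dist_eq, sub_zero, abs_of_nonneg (by positivity)]
      refine lt_of_le_of_lt ?_ hj
      apply one_div_le_one_div_of_le (by positivity)
      have : (j : ℝ) ≤ (Nat.findGreatest (fun j => N j ≤ Δ) Δ : ℝ) := by exact_mod_cast h3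
      linarith
    · intro V _ G hG Δ _ hd _ q hq
      have h3 : N (Nat.findGreatest (fun j => N j ≤ Δ) Δ) ≤ Δ :=
        Nat.findGreatest_spec (P := fun j => N j ≤ Δ) (m := 0) (Nat.zero_le _) (by
          show N 0 ≤ Δ
          rw [hN0]; exact Nat.zero_le _)
      rcases hN (Nat.findGreatest (fun j => N j ≤ Δ) Δ) with h4 | h4
      · have h5 : (1 : ℝ) / ((Nat.findGreatest (fun j => N j ≤ Δ) Δ : ℝ) + 1) = 1 := by
          rw [h4.1]; simp
        show Bound G q (1 / ((Nat.findGreatest (fun j => N j ≤ Δ) Δ : ℝ) + 1))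
        rw [h5]
        exact bound_one
      · exact h4.2 Δ h3 V G hG hd q hq

theorem ceil_range {c c' : ℝ} (hc : 0 < c) (hcc : c < c') : ∀ᶠ D : ℕ in atTop,
    c * (D / Real.log D) ≤ (⌈c * (D / Real.log D)⌉₊ : ℕ) ∧
      ((⌈c * (D / Real.log D)⌉₊ : ℕ) : ℝ) ≤ c' * (D / Real.log D) := by
  filter_upwards [tend_div_log.eventually_ge_atTop (1 / (c' - c)), eventually_ge_atTop 3] with D hD h3
  have hDR : (3 : ℝ) ≤ D := by exact_mod_cast h3
  have hl : 0 < Real.log D := Real.log_pos (by linarith)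
  have h0 : 0 ≤ c * ((D : ℝ) / Real.log D) := by positivity
  refine ⟨Nat.le_ceil _, ?_⟩
  refine (Nat.ceil_lt_add_one h0).le.trans ?_
  rw [div_le_iff₀ (by linarith)] at hD
  linarith

theorem from_one {c : ℝ} (S : Set ℕ) (h : From c) :
    One S (fun Δ => ⌈c * (Δ / Real.log Δ)⌉₊) := by
  intro η h0 h1
  obtain ⟨Δ0, hΔ0⟩ := h η h0 h1
  exact ⟨Δ0, fun Δ _ hΔ V _ G hG hd => hΔ0 Δ hΔ V G hG hd _ (Nat.le_ceil _)⟩

theorem q1_one {S : Set ℕ} (hS : LogDense S) :
    Q1 ↔ ∀ ε : ℝ, 0 < ε → One S (fun Δ => ⌈(1 / 2 + ε) * (Δ / Real.log Δ)⌉₊) := by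
  rw [q1_iff]
  constructor
  · intro h ε hε
    exact from_one S (h ε hε)
  · intro h ε hε
    exact one (c1 := 1 / 2 + ε / 2) (c2 := 1 / 2 + 3 * ε / 4) (by linarith) (by linarith)
      (by linarith) hS ((ceil_range (by linarith) (by linarith)).mono fun D hD _ => hD)
      (h (ε / 2) (by linarith))

/-- the set of all numbers -/
theorem logDense_univ : LogDense Set.univ := by
  intro R hR
  have h1 : ∀ᶠ x : ℝ in atTop, 2 ≤ x ^ (R - 1) :=
    (tendsto_rpow_atTop (by linarith : 0 < R - 1)).eventually_ge_atTop 2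
  filter_upwards [h1, eventually_ge_atTop 1] with x hx hx1
  have hx0 : 0 < x := by linarith
  refine ⟨⌈x⌉₊, Set.mem_univ _, Nat.le_ceil _, ?_⟩
  have h2 : (⌈x⌉₊ : ℝ) < x + 1 := Nat.ceil_lt_add_one hx0.le
  have h3 : x ^ R = x ^ (R - 1) * x := by
    rw [← Real.rpow_add_one hx0.ne']; congr 1; ring
  rw [h3]
  nlinarith

/-- the numbers `2^(j^2)` -/
theorem logDense_sq : LogDense {n | ∃ j : ℕ, n = 2 ^ (j ^ 2)} := by
  intro R hR
  have hl2 : 0 < Real.log 2 := Real.log_pos (by norm_num)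
  -- `(y + 1)^2 ≤ R y^2` for large `y = √(log x / log 2)`
  have h1 : ∀ᶠ y : ℝ in atTop, (y + 1) ^ 2 ≤ R * y ^ 2 := by
    filter_upwards [eventually_ge_atTop (3 / (R - 1)), eventually_ge_atTop 1] with y hy hy1
    rw [div_le_iff₀ (by linarith)] at hy
    nlinarith
  have h2 : Tendsto (fun x : ℝ => Real.sqrt (Real.log x / Real.log 2)) atTop atTop :=
    Real.tendsto_sqrt_atTop.comp (Real.tendsto_log_atTop.atTop_div_const hl2)
  filter_upwards [h2.eventually h1, eventually_ge_atTop 1] with x hx hx1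
  have hx0 : 0 < x := by linarith
  obtain ⟨y, hy⟩ : ∃ y, y = Real.sqrt (Real.log x / Real.log 2) := ⟨_, rfl⟩
  rw [← hy] at hx
  have hy0 : 0 ≤ y := by rw [hy]; exact Real.sqrt_nonneg _
  have hy2 : y ^ 2 * Real.log 2 = Real.log x := by
    rw [hy, Real.sq_sqrt (div_nonneg (Real.log_nonneg hx1) hl2.le)]
    field_simp
  refine ⟨2 ^ (⌈y⌉₊ ^ 2), ⟨⌈y⌉₊, rfl⟩, ?_, ?_⟩
  · rw [← Real.log_le_log_iff hx0 (by positivity)]
    push_cast
    rw [Real.log_pow, ← hy2]
    push_cast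
    refine mul_le_mul_of_nonneg_right ?_ hl2.le
    exact pow_le_pow_left₀ hy0 (Nat.le_ceil _) 2
  · rw [← Real.log_le_log_iff (by positivity) (Real.rpow_pos_of_pos hx0 _), Real.log_rpow hx0]
    push_cast
    rw [Real.log_pow, ← hy2]
    push_cast
    rw [← mul_assoc]
    refine mul_le_mul_of_nonneg_right ?_ hl2.le
    refine le_trans ?_ hx
    exact pow_le_pow_left₀ (Nat.cast_nonneg _) (Nat.ceil_lt_add_one hy0).le 2

end Pool.Agent.Q208.PC
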