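import Pool.Agent.Q208.PC.Exist
import Pool.Agent.Q208.PC.Lit

/-!
# Graphs without a given subgraph
-/

set_option autoImplicit false
set_option maxHeartbeats 4000000

open Filter Topology Finset

namespace Pool.Agent.Q208.PC

/-- `F`-free graphs -/
def FF {k : ℕ} (F : SimpleGraph (Fin k)) (V : Type) (G : SimpleGraph V) : Prop := F.Free G

theorem ff_mono {k : ℕ} (F : SimpleGraph (Fin k)) (V : Type) (G H : SimpleGraph V) (h : H ≤ G)
    (hG : FF F V G) : FF F V H := by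
  intro h2
  exact hG (h2.trans (SimpleGraph.IsContained.of_le h))

/-- `c(F) ≤ c` -/
def AtMost {k : ℕ} (F : SimpleGraph (Fin k)) (c : ℝ) : Prop :=
  ∀ ε : ℝ, 0 < ε → ∃ Δ₀ : ℕ, ∀ Δ : ℕ, Δ₀ ≤ Δ →
    ∀ (V : Type) [Fintype V] (G : SimpleGraph V) [DecidableRel G.Adj],
      F.Free G → G.maxDegree = Δ →
        ∃ n : ℕ, G.Colorable n ∧ (n : ℝ) ≤ (c + ε) * ((Δ : ℝ) / Real.log (Δ : ℝ))

theorem colorable_of_cc {V : Type} {G : SimpleGraph V} {q : ℕ} (h : 0 < cc G q) :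
    G.Colorable q := by
  unfold cc at h
  have h6 : 0 < Nat.card (G.Coloring (Fin q)) := by exact_mod_cast h
  obtain ⟨⟨C⟩, -⟩ := Nat.card_pos_iff.1 h6
  exact ⟨C⟩

theorem colAt_of_atMost {k : ℕ} (F : SimpleGraph (Fin k)) {c : ℝ} (hc : 0 ≤ c) (h : AtMost F c) :
    ColAt (FF F) c := by
  classical
  intro ε hε
  obtain ⟨Δ0, hΔ0⟩ := h ε hε
  obtain ⟨M, hM⟩ : ∃ M, M = max Δ0 3 := ⟨_, rfl⟩
  have hM0 : Δ0 ≤ M := by rw [hM]; exact le_max_left _ _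
  have hM3 : 3 ≤ M := by rw [hM]; exact le_max_right _ _
  have hT : Tendsto (fun n : ℕ => (c + ε) * ((n : ℝ) / Real.log n)) atTop atTop :=
    tend_div_log.const_mul_atTop (by linarith)
  obtain ⟨Δ1, hΔ1⟩ := eventually_atTop.1 (hT.eventually_ge_atTop ((M : ℝ) + 1))
  refine ⟨Δ1, fun Δ hΔ V _ G hG hd q hq => ?_⟩
  have : Fintype V := Fintype.ofFinite V
  have hdeg : ∀ v, G.degree v ≤ Δ := fun v => by rw [← deg_eq]; exact hd v
  rcases le_or_gt M G.maxDegree with h1 | h1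
  · obtain ⟨n, hn, hn2⟩ := hΔ0 G.maxDegree (hM0.trans h1) V G hG rfl
    refine hn.mono ?_
    have h2 : G.maxDegree ≤ Δ := SimpleGraph.maxDegree_le_of_forall_degree_le G Δ hdeg
    have h3 := div_log_mono (hM3.trans h1) h2
    have h4 : (n : ℝ) ≤ q := hn2.trans ((mul_le_mul_of_nonneg_left h3 (by linarith)).trans hq)
    exact_mod_cast h4
  · have hqM : M < q := by
      have : (M : ℝ) + 1 ≤ q := (hΔ1 Δ hΔ).trans hq
      have h2 : (M : ℝ) < q := by linarith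
      exact_mod_cast h2
    have h2 := greedy G (q := q) (Δ := M) (fun v => (G.degree_le_maxDegree v).trans h1.le) hqM
    refine colorable_of_cc (lt_of_lt_of_le (pow_pos ?_ _) h2)
    have : (M : ℝ) < q := by exact_mod_cast hqM
    linarith

theorem atMost_of_colAt {k : ℕ} (F : SimpleGraph (Fin k)) {c : ℝ} (hc : 0 ≤ c)
    (h : ColAt (FF F) c) : AtMost F c := by
  intro ε hε
  obtain ⟨Δ0, hΔ0⟩ := h (ε / 2) (half_pos hε)
  obtain ⟨Δ1, hΔ1⟩ := eventually_atTop.1 (ceil_range (c := c + ε / 2) (c' := c + ε)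
    (by linarith) (by linarith))
  refine ⟨max Δ0 Δ1, fun Δ hΔ V _ G _ hG hd => ?_⟩
  obtain ⟨h1, h2⟩ := hΔ1 Δ ((le_max_right _ _).trans hΔ)
  refine ⟨⌈(c + ε / 2) * (Δ / Real.log Δ)⌉₊, ?_, h2⟩
  exact hΔ0 Δ ((le_max_left _ _).trans hΔ) V G hG
    (fun v => by rw [deg_eq]; exact (G.degree_le_maxDegree v).trans hd.le) _ h1

theorem atMost_iff {k : ℕ} (F : SimpleGraph (Fin k)) {c : ℝ} (hc : 0 ≤ c) :
    AtMost F c ↔ ColAt (FF F) c := ⟨colAt_of_atMost F hc, atMost_of_colAt F hc⟩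

/-- existence of one colouring iff many colourings -/
theorem atMost_iff_cnt {k : ℕ} (F : SimpleGraph (Fin k)) {c : ℝ} (hc : 0 ≤ c) :
    AtMost F c ↔ CntAt (FF F) c := by
  rw [atMost_iff F hc]
  exact ⟨cnt_of_col (ff_mono F) hc, col_of_cnt hc⟩

/-- the same for the degrees in `S` -/
def ColOn (S : Set ℕ) (P : ∀ V : Type, SimpleGraph V → Prop) (c : ℝ) : Prop :=
  ∀ ε : ℝ, 0 < ε → ∃ Δ0 : ℕ, ∀ Δ ∈ S, Δ0 ≤ Δ → ∀ (V : Type) [Finite V] (G : SimpleGraph V),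
    P V G → (∀ v, deg G v ≤ Δ) → ∀ q : ℕ, (c + ε) * (Δ / Real.log Δ) ≤ q → G.Colorable q

/-- **a sparse set of degrees decides** -/
theorem sparse {P : ∀ V : Type, SimpleGraph V → Prop}
    (hP : ∀ (V : Type) (G H : SimpleGraph V), H ≤ G → P V G → P V H) {c R : ℝ} (hc : 0 ≤ c)
    (hR : 1 ≤ R) {S : Set ℕ} (hS : ∀ᶠ x : ℝ in atTop, ∃ D ∈ S, x ≤ (D : ℝ) ∧ (D : ℝ) ≤ x ^ R)
    (h : ColOn S P c) : ColAt P (R * c) := by
  classical
  intro ε hε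
  have hR0 : 0 < R := by linarith
  -- the small parameter
  obtain ⟨t, ht0, ht1, ht2⟩ : ∃ t : ℝ, 0 < t ∧ t < 1 / 2 ∧
      (1 + 3 * t) * (c + 2 * t) * R / (1 - t) < R * c + ε := by
    have hcont : ContinuousAt (fun t : ℝ => (1 + 3 * t) * (c + 2 * t) * R / (1 - t)) 0 := by
      refine ContinuousAt.div (by fun_prop) (by fun_prop) (by norm_num)
    have h1 : Tendsto (fun t : ℝ => (1 + 3 * t) * (c + 2 * t) * R / (1 - t)) (𝓝[>] 0)
        (𝓝 (R * c)) := by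
      have h2 := hcont.tendsto
      simp only [mul_zero, add_zero, one_mul, sub_zero, div_one] at h2
      rw [mul_comm c R] at h2
      exact h2.mono_left nhdsWithin_le_nhds
    have h3 := h1.eventually (gt_mem_nhds (show R * c < R * c + ε by linarith))
    have h4 : ∀ᶠ t : ℝ in 𝓝[>] 0, 0 < t := eventually_mem_nhdsWithin
    have h5 : ∀ᶠ t : ℝ in 𝓝[>] 0, t < 1 / 2 :=
      nhdsWithin_le_nhds (gt_mem_nhds (show (0 : ℝ) < 1 / 2 by norm_num))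
    obtain ⟨t, ha, hb, hd⟩ := (h3.and (h4.and h5)).exists
    exact ⟨t, hb, hd, ha⟩
  obtain ⟨Δ1, hΔ1⟩ := h t ht0
  obtain ⟨x0, hx0⟩ := eventually_atTop.1 hS
  obtain ⟨D1, hD1⟩ := eventually_atTop.1 (ceil_range (c := c + t) (c' := c + 2 * t)
    (by linarith) (by linarith))
  obtain ⟨γ, hγ⟩ : ∃ γ, γ = (1 - t) / R := ⟨_, rfl⟩
  have hγ0 : 0 < γ := by rw [hγ]; apply div_pos _ hR0; linarith
  obtain ⟨κ, hκ⟩ : ∃ κ, κ = t ^ 2 / ((1 + t) * (1 + 2 * t)) := ⟨_, rfl⟩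
  have hκ0 : 0 < κ := by rw [hκ]; positivity
  have e1 : ∀ᶠ n : ℕ in atTop, max (max x0 Δ1) (max (D1 : ℝ) 3) ≤ (n : ℝ) ^ γ :=
    ((tendsto_rpow_atTop hγ0).comp tendsto_natCast_atTop_atTop).eventually_ge_atTop _
  have e2 : ∀ᶠ n : ℕ in atTop, 1 / t ≤ (n : ℝ) ^ t :=
    ((tendsto_rpow_atTop ht0).comp tendsto_natCast_atTop_atTop).eventually_ge_atTop _
  obtain ⟨Δ0, hΔ0⟩ := eventually_atTop.1 ((e1.and e2).and ((ev_exp hκ0 hγ0).and
    (eventually_ge_atTop 3)))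
  refine ⟨Δ0, fun Δ hΔ V _ G hG hd q hq => ?_⟩
  obtain ⟨⟨F1, F2⟩, F3, F4⟩ := hΔ0 Δ hΔ
  have hΔR : (3 : ℝ) ≤ Δ := by exact_mod_cast F4
  have hΔp : (0 : ℝ) < Δ := by linarith
  have hlogΔ : 0 < Real.log Δ := Real.log_pos (by linarith)
  have g1 : x0 ≤ (Δ : ℝ) ^ γ := ((le_max_left _ _).trans (le_max_left _ _)).trans F1
  have g2 : (Δ1 : ℝ) ≤ (Δ : ℝ) ^ γ := ((le_max_right _ _).trans (le_max_left _ _)).trans F1
  have g3 : (D1 : ℝ) ≤ (Δ : ℝ) ^ γ := ((le_max_left _ _).trans (le_max_right _ _)).trans F1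
  have g4 : (3 : ℝ) ≤ (Δ : ℝ) ^ γ := ((le_max_right _ _).trans (le_max_right _ _)).trans F1
  obtain ⟨D, hDS, hDlo, hDhi⟩ := hx0 _ g1
  have hDhi' : (D : ℝ) ≤ (Δ : ℝ) ^ (1 - t) := by
    refine hDhi.trans (le_of_eq ?_)
    rw [← Real.rpow_mul hΔp.le, hγ]
    congr 1
    field_simp
  have hD0 : (0 : ℝ) < D := by linarith
  have hΔD1 : Δ1 ≤ D := by
    have : (Δ1 : ℝ) ≤ D := g2.trans hDlo
    exact_mod_cast this
  have hD1D : D1 ≤ D := by
    have : (D1 : ℝ) ≤ D := g3.trans hDlo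
    exact_mod_cast this
  have hlogD : γ * Real.log Δ ≤ Real.log D := by
    rw [← Real.log_rpow hΔp]
    exact Real.log_le_log (Real.rpow_pos_of_pos hΔp _) hDlo
  have hlogD0 : 0 < Real.log D := lt_of_lt_of_le (mul_pos hγ0 hlogΔ) hlogD
  -- s
  have hΔD : 1 / t ≤ (Δ : ℝ) / D := by
    refine F2.trans ?_
    rw [le_div_iff₀ hD0]
    calc (Δ : ℝ) ^ t * D ≤ (Δ : ℝ) ^ t * (Δ : ℝ) ^ (1 - t) :=
          mul_le_mul_of_nonneg_left hDhi' (Real.rpow_nonneg hΔp.le _)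
      _ = Δ := by rw [← Real.rpow_add hΔp, add_sub_cancel, Real.rpow_one]
  have htΔD : 1 ≤ t * (Δ / D) := by
    rw [div_le_iff₀ ht0] at hΔD; linarith
  have hΔD0 : (0 : ℝ) < Δ / D := by positivity
  obtain ⟨s, hs⟩ : ∃ s : ℕ, s = ⌈(1 + 2 * t) * (Δ / D)⌉₊ := ⟨_, rfl⟩
  have hslo : (1 + 2 * t) * (Δ / D) ≤ s := by rw [hs]; exact Nat.le_ceil _
  have hshi : (s : ℝ) ≤ (1 + 3 * t) * (Δ / D) := by
    have h2 : (s : ℝ) < (1 + 2 * t) * (Δ / D) + 1 := by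
      rw [hs]; exact Nat.ceil_lt_add_one (by positivity)
    have h3 : (1 + 3 * t) * ((Δ : ℝ) / D) = (1 + 2 * t) * (Δ / D) + t * (Δ / D) := by ring
    linarith
  have hs0 : (0 : ℝ) < s := lt_of_lt_of_le (by positivity) hslo
  have hs1 : 1 ≤ s := by
    have : 0 < s := by exact_mod_cast hs0
    omega
  have hsD : (1 + 2 * t) * Δ ≤ s * D := by
    have h2 := mul_le_mul_of_nonneg_right hslo hD0.le
    have h3 : (1 + 2 * t) * ((Δ : ℝ) / D) * D = (1 + 2 * t) * Δ := by field_simp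
    linarith
  have hpar : Param s D Δ := by
    refine param_of ht0 hs1 hsD ?_
    refine F3.trans ?_
    rw [Real.exp_le_exp, ← hκ]
    exact mul_le_mul_of_nonneg_left hDlo hκ0.le
  have : Fintype V := Fintype.ofFinite V
  have : NeZero s := ⟨by omega⟩
  have hdeg : ∀ v, G.degree v ≤ Δ := fun v => by rw [← deg_eq]; exact hd v
  obtain ⟨hk1, hk2⟩ := hD1 D hD1D
  obtain ⟨k, hk⟩ : ∃ k : ℕ, k = ⌈(c + t) * (D / Real.log D)⌉₊ := ⟨_, rfl⟩
  rw [← hk] at hk1 hk2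
  have hskq : s * k ≤ q := by
    have h2 : (s : ℝ) * k ≤ q := by
      refine le_trans ?_ hq
      have h3 : (D : ℝ) / Real.log D ≤ D / (γ * Real.log Δ) :=
        div_le_div_of_nonneg_left hD0.le (mul_pos hγ0 hlogΔ) hlogD
      calc (s : ℝ) * k ≤ ((1 + 3 * t) * (Δ / D)) * ((c + 2 * t) * (D / Real.log D)) :=
            mul_le_mul hshi hk2 (Nat.cast_nonneg _) (by positivity)
        _ ≤ ((1 + 3 * t) * (Δ / D)) * ((c + 2 * t) * (D / (γ * Real.log Δ))) := by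
            refine mul_le_mul_of_nonneg_left ?_ (by positivity)
            exact mul_le_mul_of_nonneg_left h3 (by linarith)
        _ = (1 + 3 * t) * (c + 2 * t) * R / (1 - t) * (Δ / Real.log Δ) := by
            rw [hγ]
            have : (1 - t) ≠ 0 := by linarith
            field_simp
        _ ≤ (R * c + ε) * (Δ / Real.log Δ) :=
            mul_le_mul_of_nonneg_right ht2.le (by positivity)
    exact_mod_cast h2
  have ht := transfer_exist G D hdeg hpar hskq (fun f hf =>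
    hΔ1 D hDS hΔD1 V (part G f) (hP V G _ (part_le G f) hG) (fun v => deg_part G D hf v) k hk1)
  refine colorable_of_cc (lt_of_lt_of_le (pow_pos ?_ _) ht)
  exact mul_pos (lt_of_lt_of_le (by norm_num) (th_pos Δ)) hs0

/-- `{2^(2^j)}` meets `[x, x^2]` -/
theorem meets_sq : ∀ᶠ x : ℝ in atTop, ∃ D ∈ {n : ℕ | ∃ j : ℕ, n = 2 ^ (2 ^ j)},
    x ≤ (D : ℝ) ∧ (D : ℝ) ≤ x ^ (2 : ℝ) := by
  filter_upwards [eventually_gt_atTop (2 : ℝ)] with x hx
  have hx0 : 0 < x := by linarith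
  have hex : ∃ j : ℕ, x ≤ ((2 ^ (2 ^ j) : ℕ) : ℝ) := by
    obtain ⟨n, hn⟩ := exists_nat_ge x
    refine ⟨n, hn.trans ?_⟩
    have h1 : n < 2 ^ n := Nat.lt_two_pow_self
    have h2 : 2 ^ n < 2 ^ (2 ^ n) := Nat.lt_two_pow_self
    exact_mod_cast (h1.trans h2).le
  classical
  obtain ⟨j, hj, hmin⟩ : ∃ j : ℕ, x ≤ ((2 ^ (2 ^ j) : ℕ) : ℝ) ∧
      ∀ i < j, ¬ x ≤ ((2 ^ (2 ^ i) : ℕ) : ℝ) :=
    ⟨Nat.find hex, Nat.find_spec hex, fun i hi => Nat.find_min hex hi⟩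
  refine ⟨2 ^ (2 ^ j), ⟨j, rfl⟩, hj, ?_⟩
  rcases Nat.eq_zero_or_pos j with h0 | h0
  · exfalso
    rw [h0] at hj
    norm_num at hj
    linarith
  · have h1 := not_le.1 (hmin (j - 1) (by omega))
    have h2 : ((2 ^ (2 ^ j) : ℕ) : ℝ) = ((2 ^ (2 ^ (j - 1)) : ℕ) : ℝ) ^ 2 := by
      push_cast
      rw [← pow_mul, ← pow_succ, Nat.sub_add_cancel h0]
    rw [h2, Real.rpow_two]
    exact pow_le_pow_left₀ (Nat.cast_nonneg _) h1.le 2

theorem colOn_of_colAt {S : Set ℕ} {P : ∀ V : Type, SimpleGraph V → Prop} {c : ℝ}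
    (h : ColAt P c) : ColOn S P c := by
  intro ε hε
  obtain ⟨Δ0, hΔ0⟩ := h ε hε
  exact ⟨Δ0, fun Δ _ hΔ => hΔ0 Δ hΔ⟩

theorem sparse_iff {P : ∀ V : Type, SimpleGraph V → Prop}
    (hP : ∀ (V : Type) (G H : SimpleGraph V), H ≤ G → P V G → P V H) {c : ℝ} (hc : 0 ≤ c)
    {S : Set ℕ} (hS : LogDense S) : ColAt P c ↔ ColOn S P c := by
  refine ⟨colOn_of_colAt, fun h ε hε => ?_⟩
  -- choose R close to one
  obtain ⟨R, hR1, hR2⟩ : ∃ R : ℝ, 1 < R ∧ R * c ≤ c + ε / 2 := by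
    refine ⟨1 + ε / (2 * (c + 1)), ?_, ?_⟩
    · have : 0 < ε / (2 * (c + 1)) := by positivity
      linarith
    · have h1 : ε / (2 * (c + 1)) * c ≤ ε / 2 := by
        rw [div_mul_eq_mul_div, div_le_div_iff₀ (by positivity) (by norm_num)]
        nlinarith
      linarith
  obtain ⟨Δ0, hΔ0⟩ := sparse hP hc hR1.le (hS R hR1) h (ε / 2) (half_pos hε)
  refine ⟨max Δ0 3, fun Δ hΔ V _ G hG hd q hq => ?_⟩
  refine hΔ0 Δ ((le_max_left _ _).trans hΔ) V G hG hd q (le_trans ?_ hq)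
  have h3 : 3 ≤ Δ := (le_max_right _ _).trans hΔ
  have hΔR : (3 : ℝ) ≤ Δ := by exact_mod_cast h3
  have hlog : 0 < Real.log Δ := Real.log_pos (by linarith)
  exact mul_le_mul_of_nonneg_right (by linarith) (by positivity)

end Pool.Agent.Q208.PC
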