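import Pool.Agent.Q208.PC.Col

/-!
# The greedy bound `(q - Δ)^n`, and a criterion for the parameters
-/

set_option autoImplicit false
set_option linter.unusedSectionVars false

open Finset

namespace Pool.Agent.Q208.PC

variable {V : Type} [Fintype V] [DecidableEq V] (G : SimpleGraph V) [DecidableRel G.Adj]

theorem cc_eq_aa (q : ℕ) : aa G q 0 univ ≤ cc G q := by
  classical
  unfold aa cc
  let Φ : (GS G q 0 univ) → G.Coloring (Fin q) := fun f =>
    SimpleGraph.Coloring.mk f.1 (by
      intro u v huv h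
      have hf := f.2
      simp only [GS, mem_filter, mem_univ, true_and] at hf
      have h1 := hf u (mem_univ u)
      have h2 : v ∈ same G univ f.1 u := by
        simp only [same, mem_filter, mem_univ, true_and]
        exact ⟨huv, h.symm⟩
      have h3 : 0 < (same G univ f.1 u).card := card_pos.2 ⟨v, h2⟩
      omega)
  have hΦ : Function.Injective Φ := by
    intro f g h
    apply Subtype.ext
    funext v
    exact DFunLike.congr_fun h v
  have h1 := Nat.card_le_card_of_injective Φ hΦ
  rw [Nat.card_eq_fintype_card, Fintype.card_coe] at h1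
  exact_mod_cast h1

theorem greedy_step {q Δ : ℕ} [NeZero q] (hΔ : ∀ v, G.degree v ≤ Δ) (H : Finset V) (v : V)
    (hv : v ∉ H) : (1 - (Δ : ℝ) / q) * aa G q 0 H ≤ aa G q 0 (insert v H) := by
  have hq0 : (0 : ℝ) < q := Nat.cast_pos.2 (Nat.pos_of_ne_zero (NeZero.ne q))
  let B : V → Finset (V → Fin q) := fun u => univ.filter fun f : V → Fin q =>
    Good G 0 H f ∧ f u = f v
  have hB : ∀ u ∈ G.neighborFinset v, ((B u).card : ℝ) * q = aa G q 0 H := by
    intro u hu
    have huv : u ≠ v := by
      rintro rfl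
      simp at hu
    have key := avg (s := q) v (fun f => if Good G 0 H f ∧ f u = f v then (1 : ℝ) else 0)
    have h2 : ∀ f : V → Fin q, ∑ c : Fin q, (if Good G 0 H (Function.update f v c) ∧
        Function.update f v c u = Function.update f v c v then (1 : ℝ) else 0)
        = if Good G 0 H f then 1 else 0 := by
      intro f
      by_cases hG : Good G 0 H f
      · rw [if_pos hG]
        have h3 : ∀ c : Fin q, (if Good G 0 H (Function.update f v c) ∧
            Function.update f v c u = Function.update f v c v then (1 : ℝ) else 0)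
            = if f u = c then 1 else 0 := by
          intro c
          rw [Function.update_self, Function.update_of_ne huv]
          simp [good_update G 0 hv, hG]
        rw [sum_congr rfl fun c _ => h3 c]
        simp
      · rw [if_neg hG]
        refine sum_eq_zero fun c _ => ?_
        rw [if_neg]
        rintro ⟨h3, -⟩
        exact hG ((good_update G 0 hv).1 h3)
    rw [sum_congr rfl fun f _ => h2 f, ← aa_eq, ← sum_filter, sum_const, nsmul_eq_mul,
      mul_one] at key
    rw [mul_comm]
    exact key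
  have hcov : GS G q 0 H ⊆ GS G q 0 (insert v H) ∪ (G.neighborFinset v).biUnion B := by
    intro f hf
    simp only [GS, mem_filter, mem_univ, true_and] at hf
    rw [mem_union, mem_biUnion]
    by_cases hg : Good G 0 (insert v H) f
    · left
      simp only [GS, mem_filter, mem_univ, true_and]
      exact hg
    · right
      unfold Good at hg
      push Not at hg
      obtain ⟨u, hu, hDu⟩ := hg
      obtain ⟨w, hw⟩ := card_pos.1 hDu
      simp only [same, mem_filter] at hw
      obtain ⟨hwH, huw, hfw⟩ := hw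
      rcases mem_insert.1 hu with rfl | huH
      · refine ⟨w, by rw [SimpleGraph.mem_neighborFinset]; exact huw, ?_⟩
        simp only [B, mem_filter, mem_univ, true_and]
        exact ⟨hf, hfw⟩
      · rcases mem_insert.1 hwH with rfl | hwH2
        · refine ⟨u, by rw [SimpleGraph.mem_neighborFinset]; exact huw.symm, ?_⟩
          simp only [B, mem_filter, mem_univ, true_and]
          exact ⟨hf, hfw.symm⟩
        · exfalso
          have h1 := hf u huH
          have h2 : w ∈ same G H f u := by
            simp only [same, mem_filter]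
            exact ⟨hwH2, huw, hfw⟩
          have h3 : 0 < (same G H f u).card := card_pos.2 ⟨w, h2⟩
          omega
  have hfin : aa G q 0 H ≤ aa G q 0 (insert v H) + ∑ u ∈ G.neighborFinset v, ((B u).card : ℝ) := by
    unfold aa
    have h1 := card_le_card hcov
    have h2 := card_union_le (GS G q 0 (insert v H)) ((G.neighborFinset v).biUnion B)
    have h3 := card_biUnion_le (s := G.neighborFinset v) (t := B)
    have h4 : (GS G q 0 H).card ≤ (GS G q 0 (insert v H)).card +
        ∑ u ∈ G.neighborFinset v, (B u).card := by omega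
    exact_mod_cast h4
  have hsum : ∑ u ∈ G.neighborFinset v, ((B u).card : ℝ) ≤ (Δ : ℝ) / q * aa G q 0 H := by
    have h1 : ∀ u ∈ G.neighborFinset v, ((B u).card : ℝ) = aa G q 0 H / q := by
      intro u hu
      rw [eq_div_iff hq0.ne']; exact hB u hu
    rw [sum_congr rfl h1, sum_const, nsmul_eq_mul, SimpleGraph.card_neighborFinset_eq_degree]
    have h2 : (G.degree v : ℝ) ≤ Δ := by exact_mod_cast hΔ v
    calc (G.degree v : ℝ) * (aa G q 0 H / q) ≤ Δ * (aa G q 0 H / q) :=
          mul_le_mul_of_nonneg_right h2 (div_nonneg (aa_nonneg _ _ _) hq0.le)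
      _ = (Δ : ℝ) / q * aa G q 0 H := by ring
  linarith

/-- the greedy bound -/
theorem greedy {q Δ : ℕ} (hΔ : ∀ v, G.degree v ≤ Δ) (hq : Δ < q) :
    ((q : ℝ) - Δ) ^ Fintype.card V ≤ cc G q := by
  have : NeZero q := ⟨by omega⟩
  have hq0 : (0 : ℝ) < q := by exact_mod_cast (show 0 < q by omega)
  have hΔq : (Δ : ℝ) < q := by exact_mod_cast hq
  have ht0 : 0 < 1 - (Δ : ℝ) / q := by
    have : (Δ : ℝ) / q < 1 := by rw [div_lt_one hq0]; exact hΔq
    linarith
  have ht1 : 1 - (Δ : ℝ) / q ≤ 1 := by
    have : 0 ≤ (Δ : ℝ) / q := by positivity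
    linarith
  have h1 := chain G 0 (s := q) ht0 ht1 (H := univ) (fun L _ w _ hwL =>
    greedy_step G hΔ L w hwL) (Fintype.card V) ∅ (empty_subset _) (by simp)
  have h2 : aa G q 0 ∅ = (q : ℝ) ^ Fintype.card V := by
    unfold aa GS
    rw [filter_true_of_mem (fun f _ => by intro u hu; simp at hu)]
    simp
  rw [h2, ← mul_pow] at h1
  refine le_trans (le_of_eq ?_) (h1.trans (cc_eq_aa G q))
  congr 1
  field_simp

/-- a criterion for the parameters -/
theorem param_of {s D Δ : ℕ} {e : ℝ} (he0 : 0 < e) (hs : 1 ≤ s)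
    (hsD : (1 + 2 * e) * Δ ≤ s * D)
    (h4 : 4 * ((Δ : ℝ) + 1) ^ 2 ≤ Real.exp (e ^ 2 / ((1 + e) * (1 + 2 * e)) * D)) :
    Param s D Δ := by
  have hs0 : (0 : ℝ) < s := by exact_mod_cast (show 0 < s by omega)
  have hΔs : (Δ : ℝ) / s ≤ D / (1 + 2 * e) := by
    rw [div_le_div_iff₀ hs0 (by linarith)]; linarith
  refine ⟨1 + e, by linarith, ?_⟩
  have h2 : ((s : ℝ) - 1 + (1 + e)) / s ≤ Real.exp (e / s) := by
    have h3 : ((s : ℝ) - 1 + (1 + e)) / s = e / s + 1 := by field_simp; ring
    rw [h3]; exact Real.add_one_le_exp _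
  have h2' : 0 ≤ ((s : ℝ) - 1 + (1 + e)) / s := by
    apply div_nonneg _ hs0.le; linarith
  have h3 : (((s : ℝ) - 1 + (1 + e)) / s) ^ Δ ≤ Real.exp (e * (D / (1 + 2 * e))) := by
    calc (((s : ℝ) - 1 + (1 + e)) / s) ^ Δ ≤ Real.exp (e / s) ^ Δ := pow_le_pow_left₀ h2' h2 Δ
      _ = Real.exp (Δ * (e / s)) := by rw [← Real.exp_nat_mul]
      _ ≤ Real.exp (e * (D / (1 + 2 * e))) := by
          rw [Real.exp_le_exp]
          have h4 : (Δ : ℝ) * (e / s) = e * (Δ / s) := by ring
          rw [h4]
          exact mul_le_mul_of_nonneg_left hΔs he0.le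
  have h5 : e / (1 + e) ≤ Real.log (1 + e) := by
    have := Real.one_sub_inv_le_log_of_pos (show 0 < 1 + e by linarith)
    have h5 : 1 - (1 + e)⁻¹ = e / (1 + e) := by field_simp; ring
    linarith
  have h6 : Real.exp (D * (e / (1 + e))) ≤ (1 + e) ^ (D + 1) := by
    have h6 : (1 + e) ^ (D + 1) = Real.exp (((D + 1 : ℕ) : ℝ) * Real.log (1 + e)) := by
      rw [Real.exp_nat_mul, Real.exp_log (by linarith)]
    rw [h6, Real.exp_le_exp]
    push_cast
    calc (D : ℝ) * (e / (1 + e)) ≤ (D + 1) * (e / (1 + e)) :=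
          mul_le_mul_of_nonneg_right (by linarith) (by positivity)
      _ ≤ (D + 1) * Real.log (1 + e) := mul_le_mul_of_nonneg_left h5 (by positivity)
  have h7 : e ^ 2 / ((1 + e) * (1 + 2 * e)) * D + e * (D / (1 + 2 * e)) = D * (e / (1 + e)) := by
    field_simp; ring
  calc 4 * ((Δ : ℝ) + 1) ^ 2 * (((s : ℝ) - 1 + (1 + e)) / s) ^ Δ
      ≤ Real.exp (e ^ 2 / ((1 + e) * (1 + 2 * e)) * D) * Real.exp (e * (D / (1 + 2 * e))) :=
        mul_le_mul h4 h3 (pow_nonneg h2' _) (Real.exp_pos _).le
    _ = Real.exp (D * (e / (1 + e))) := by rw [← Real.exp_add, h7]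
    _ ≤ _ := h6

end Pool.Agent.Q208.PC
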