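import Pool.Agent.Q208.PC.Col
import Pool.Agent.Q208.PC.Scale
import Pool.Agent.Y263.CF.Local
import Pool.Agent.Y528.CF.K

/-!
# The range `q ≥ 2 Δ / log Δ`, and the window theorem
-/

set_option autoImplicit false
set_option maxHeartbeats 4000000

open Filter Topology Finset

namespace Pool.Agent.Q208.PC

/-- the inequality of Q1 -/
def Bound {V : Type} (G : SimpleGraph V) (q : ℕ) (η : ℝ) : Prop :=
  (1 - 1 / (q : ℝ)) ^ edges G * ((1 - η) * q) ^ Nat.card V ≤ cc G q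

theorem loc {V : Type} [Finite V] (G : SimpleGraph V) (hG : G.CliqueFree 3) {q : ℕ} {δ : ℝ}
    (hq : 2 ≤ q) (h0 : 0 ≤ δ) (h1 : δ < 1)
    (h : ∀ v, (2 + (deg G v : ℝ) / q) * (∑ᶠ u ∈ G.neighborSet v, ((1 - 1 / (q : ℝ)) ^ deg G u)⁻¹)
      ≤ δ * (1 - δ) * (q : ℝ) ^ 2) : Bound G q δ := by
  have := Fintype.ofFinite V
  have h2 := (Y263.CF.proof_LOCAL Pool.Agent.Y528.CF.proof_K) V G hG q δ hq h0 h1 h
  unfold Bound
  rw [Nat.card_eq_fintype_card]
  exact h2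

theorem sum_le_of_deg {V : Type} [Finite V] (G : SimpleGraph V) (v : V) (f : V → ℝ) {B : ℝ}
    {Δ : ℕ} (hB : 0 ≤ B) (hd : deg G v ≤ Δ) (hf : ∀ u, f u ≤ B) :
    ∑ᶠ u ∈ G.neighborSet v, f u ≤ Δ * B := by
  classical
  have := Fintype.ofFinite V
  have h1 : G.neighborSet v = ((G.neighborFinset v : Finset V) : Set V) := by
    ext u; simp
  have h2 : (G.neighborFinset v).card = deg G v := by
    rw [deg_eq, SimpleGraph.card_neighborFinset_eq_degree]
  rw [h1, finsum_mem_coe_finset]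
  calc ∑ u ∈ G.neighborFinset v, f u ≤ ∑ _u ∈ G.neighborFinset v, B := sum_le_sum fun u _ => hf u
    _ = (deg G v : ℝ) * B := by rw [sum_const, nsmul_eq_mul, h2]
    _ ≤ Δ * B := mul_le_mul_of_nonneg_right (by exact_mod_cast hd) hB

theorem ev_high {C : ℝ} (hC : 0 < C) : ∀ᶠ n : ℕ in atTop,
    (2 + Real.log n / 2) * ((n : ℝ) * (n : ℝ) ^ ((3 : ℝ) / 4)) * Real.log n ^ 2 ≤
      C * (n : ℝ) ^ 2 := by
  have h1 : ∀ᶠ x : ℝ in atTop, (2 + Real.log x / 2) * (x * x ^ ((3 : ℝ) / 4)) * Real.log x ^ 2 ≤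
      C * x ^ 2 := by
    have h2 := (isLittleO_log_rpow_atTop (show (0 : ℝ) < 1 / 12 by norm_num)).bound
      (show 0 < min 1 C from lt_min one_pos hC)
    filter_upwards [h2, eventually_gt_atTop (1 : ℝ), Real.tendsto_log_atTop.eventually_ge_atTop 4]
      with x hx hx1 hx4
    have hx0 : 0 < x := by linarith
    have hlog : 0 < Real.log x := by linarith
    rw [Real.norm_eq_abs, abs_of_pos hlog, Real.norm_eq_abs,
      abs_of_nonneg (Real.rpow_nonneg hx0.le _)] at hx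
    obtain ⟨m, hm⟩ : ∃ m, m = min 1 C := ⟨_, rfl⟩
    rw [← hm] at hx
    have hm1 : m ≤ 1 := by rw [hm]; exact min_le_left _ _
    have hmC : m ≤ C := by rw [hm]; exact min_le_right _ _
    have hm0 : 0 < m := by rw [hm]; exact lt_min one_pos hC
    have h3 : Real.log x ^ 3 ≤ C * x ^ ((1 : ℝ) / 4) := by
      calc Real.log x ^ 3 ≤ (m * x ^ ((1 : ℝ) / 12)) ^ 3 := pow_le_pow_left₀ hlog.le hx 3
        _ = m ^ 3 * x ^ ((1 : ℝ) / 4) := by
            rw [mul_pow, ← Real.rpow_natCast (x ^ ((1 : ℝ) / 12)) 3, ← Real.rpow_mul hx0.le]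
            congr 2
            norm_num
        _ ≤ C * x ^ ((1 : ℝ) / 4) := by
            refine mul_le_mul_of_nonneg_right ?_ (Real.rpow_nonneg hx0.le _)
            calc m ^ 3 = m * (m * m) := by ring
              _ ≤ m * (1 * 1) := by
                  refine mul_le_mul_of_nonneg_left ?_ hm0.le
                  exact mul_le_mul hm1 hm1 hm0.le zero_le_one
              _ ≤ C := by linarith
    have h4 : (2 + Real.log x / 2) ≤ Real.log x := by linarith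
    have h5 : x * x ^ ((3 : ℝ) / 4) * x ^ ((1 : ℝ) / 4) = x ^ 2 := by
      rw [mul_assoc, ← Real.rpow_add hx0]
      norm_num
      ring
    have h6 : 0 < x * x ^ ((3 : ℝ) / 4) := mul_pos hx0 (Real.rpow_pos_of_pos hx0 _)
    calc (2 + Real.log x / 2) * (x * x ^ ((3 : ℝ) / 4)) * Real.log x ^ 2
        ≤ Real.log x * (x * x ^ ((3 : ℝ) / 4)) * Real.log x ^ 2 := by
          refine mul_le_mul_of_nonneg_right (mul_le_mul_of_nonneg_right h4 h6.le) (by positivity)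
      _ = (x * x ^ ((3 : ℝ) / 4)) * Real.log x ^ 3 := by ring
      _ ≤ (x * x ^ ((3 : ℝ) / 4)) * (C * x ^ ((1 : ℝ) / 4)) := mul_le_mul_of_nonneg_left h3 h6.le
      _ = C * (x * x ^ ((3 : ℝ) / 4) * x ^ ((1 : ℝ) / 4)) := by ring
      _ = C * x ^ 2 := by rw [h5]
  exact tendsto_natCast_atTop_atTop.eventually h1

/-- the known range -/
theorem high {η : ℝ} (hη0 : 0 < η) (hη1 : η < 1) : ∃ Δ0 : ℕ, ∀ Δ : ℕ, Δ0 ≤ Δ →
    ∀ (V : Type) [Finite V] (G : SimpleGraph V), G.CliqueFree 3 → (∀ v, deg G v ≤ Δ) →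
      ∀ q : ℕ, 2 * (Δ / Real.log Δ) ≤ q → Bound G q η := by
  have hC : 0 < 4 * (η * (1 - η)) := by
    have : 0 < η * (1 - η) := mul_pos hη0 (by linarith)
    linarith
  obtain ⟨Δ0, h0⟩ := eventually_atTop.1 ((ev_high hC).and (eventually_ge_atTop 9))
  refine ⟨Δ0, fun Δ hΔ V _ G hG hd q hq => ?_⟩
  obtain ⟨h1, h9⟩ := h0 Δ hΔ
  have hΔR : (9 : ℝ) ≤ Δ := by exact_mod_cast h9
  have hΔp : (0 : ℝ) < Δ := by linarith
  have hlog : 0 < Real.log Δ := Real.log_pos (by linarith)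
  have hlog2 : Real.log Δ ≤ Δ / 2 := by
    -- log Δ ≤ Δ / 2
    have h2 := Real.log_le_sub_one_of_pos (show 0 < (Δ : ℝ) / 2 by linarith)
    rw [Real.log_div hΔp.ne' (by norm_num)] at h2
    have := Real.log_two_lt_d9
    linarith
  have hq0 : (0 : ℝ) < q := lt_of_lt_of_le (by positivity) hq
  have hq4 : (4 : ℝ) ≤ q := by
    refine le_trans ?_ hq
    rw [mul_div_assoc', le_div_iff₀ hlog]; linarith
  have hq2 : 2 ≤ q := by
    have : 4 ≤ q := by exact_mod_cast hq4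
    omega
  have hzq : (Δ : ℝ) / q ≤ Real.log Δ / 2 := by
    rw [div_le_div_iff₀ hq0 (by norm_num)]
    rw [mul_div_assoc', div_le_iff₀ hlog] at hq
    linarith
  refine loc G hG hq2 hη0.le hη1 fun v => ?_
  have hy0 : 0 < 1 - 1 / (q : ℝ) := by
    have : 1 / (q : ℝ) ≤ 1 / 2 := by apply one_div_le_one_div_of_le <;> linarith
    linarith
  have hy1 : 1 - 1 / (q : ℝ) ≤ 1 := by
    have : 0 ≤ 1 / (q : ℝ) := by positivity
    linarith
  have hB : ∀ u, ((1 - 1 / (q : ℝ)) ^ deg G u)⁻¹ ≤ (Δ : ℝ) ^ ((3 : ℝ) / 4) := by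
    intro u
    have h2 : (1 - 1 / (q : ℝ)) ^ Δ ≤ (1 - 1 / (q : ℝ)) ^ deg G u :=
      pow_le_pow_of_le_one hy0.le hy1 (hd u)
    have h3 : Real.exp (-((3 : ℝ) / 4 * Real.log Δ)) ≤ (1 - 1 / (q : ℝ)) ^ Δ := by
      have h4 := Pool.Agent.Y528.CF.log_bound q hq2
      have h5 : (1 - 1 / (q : ℝ)) ^ Δ = Real.exp (Δ * Real.log (1 - 1 / (q : ℝ))) := by
        rw [Real.exp_nat_mul, Real.exp_log hy0]
      rw [h5, Real.exp_le_exp]
      have h6 : -((1 + 1 / (q : ℝ)) * (1 / q)) ≤ Real.log (1 - 1 / (q : ℝ)) := by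
        have : -(1 + 1 / (q : ℝ)) / q ≤ Real.log (1 - 1 / (q : ℝ)) := by
          rw [div_le_iff₀ hq0]; linarith
        calc -((1 + 1 / (q : ℝ)) * (1 / q)) = -(1 + 1 / (q : ℝ)) / q := by ring
          _ ≤ _ := this
      have h7 : 1 / (q : ℝ) ≤ 1 / 4 := by apply one_div_le_one_div_of_le <;> linarith
      have h8 : (Δ : ℝ) * (-((1 + 1 / (q : ℝ)) * (1 / q))) = -((1 + 1 / (q : ℝ)) * (Δ / q)) := by ring
      have h9 : (1 + 1 / (q : ℝ)) * (Δ / q) ≤ (3 / 2) * (Real.log Δ / 2) :=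
        mul_le_mul (by linarith) hzq (by positivity) (by norm_num)
      calc -((3 : ℝ) / 4 * Real.log Δ) ≤ -((1 + 1 / (q : ℝ)) * (Δ / q)) := by linarith
        _ = (Δ : ℝ) * (-((1 + 1 / (q : ℝ)) * (1 / q))) := h8.symm
        _ ≤ Δ * Real.log (1 - 1 / (q : ℝ)) := mul_le_mul_of_nonneg_left h6 hΔp.le
    have h4 : (Δ : ℝ) ^ ((3 : ℝ) / 4) = (Real.exp (-((3 : ℝ) / 4 * Real.log Δ)))⁻¹ := by
      rw [← Real.exp_neg, neg_neg, Real.rpow_def_of_pos hΔp]
      congr 1; ring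
    rw [h4]
    exact inv_anti₀ (Real.exp_pos _) (h3.trans h2)
  have hB0 : 0 ≤ (Δ : ℝ) ^ ((3 : ℝ) / 4) := Real.rpow_nonneg hΔp.le _
  have hS := sum_le_of_deg G v _ hB0 (hd v) hB
  have hdv : (deg G v : ℝ) / q ≤ Real.log Δ / 2 := by
    refine le_trans ?_ hzq
    exact div_le_div_of_nonneg_right (by exact_mod_cast hd v) hq0.le
  have hS0 : 0 ≤ ∑ᶠ u ∈ G.neighborSet v, ((1 - 1 / (q : ℝ)) ^ deg G u)⁻¹ := by
    refine finsum_nonneg fun u => finsum_nonneg fun _ => ?_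
    exact inv_nonneg.2 (pow_nonneg hy0.le _)
  calc (2 + (deg G v : ℝ) / q) * (∑ᶠ u ∈ G.neighborSet v, ((1 - 1 / (q : ℝ)) ^ deg G u)⁻¹)
      ≤ (2 + Real.log Δ / 2) * (Δ * (Δ : ℝ) ^ ((3 : ℝ) / 4)) :=
        mul_le_mul (by linarith) hS hS0 (by linarith)
    _ ≤ (4 * (η * (1 - η)) * (Δ : ℝ) ^ 2) / Real.log Δ ^ 2 := by
        rw [le_div_iff₀ (by positivity)]
        exact h1
    _ = η * (1 - η) * (2 * (Δ / Real.log Δ)) ^ 2 := by
        field_simp
        ring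
    _ ≤ η * (1 - η) * (q : ℝ) ^ 2 := by
        refine mul_le_mul_of_nonneg_left ?_ (mul_nonneg hη0.le (by linarith))
        exact pow_le_pow_left₀ (by positivity) hq 2

/-- the inequality of Q1 with `k(Δ)` colours, for maximum degrees `Δ ∈ S` -/
def One (S : Set ℕ) (kk : ℕ → ℕ) : Prop := ∀ η : ℝ, 0 < η → η < 1 → ∃ Δ0 : ℕ, ∀ Δ ∈ S, Δ0 ≤ Δ →
  ∀ (V : Type) [Finite V] (G : SimpleGraph V), G.CliqueFree 3 → (∀ v, deg G v ≤ Δ) →
    Bound G (kk Δ) η

/-- the inequality of Q1 for all `q ≥ c1 Δ / log Δ` -/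
def From (c1 : ℝ) : Prop := ∀ η : ℝ, 0 < η → η < 1 → ∃ Δ0 : ℕ, ∀ Δ : ℕ, Δ0 ≤ Δ →
  ∀ (V : Type) [Finite V] (G : SimpleGraph V), G.CliqueFree 3 → (∀ v, deg G v ≤ Δ) →
    ∀ q : ℕ, c1 * (Δ / Real.log Δ) ≤ q → Bound G q η

theorem edges_le {V : Type} [Fintype V] [DecidableEq V] (G : SimpleGraph V) [DecidableRel G.Adj]
    {Δ : ℕ} (h : ∀ v, G.degree v ≤ Δ) : (edges G : ℝ) ≤ Fintype.card V * (Δ / 2) := by
  have h2 := G.sum_degrees_eq_twice_card_edges
  rw [← edges_eq] at h2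
  have h3 : ∑ v : V, G.degree v ≤ Fintype.card V * Δ := by
    calc ∑ v : V, G.degree v ≤ ∑ _v : V, Δ := sum_le_sum fun v _ => h v
      _ = Fintype.card V * Δ := by rw [sum_const, card_univ, smul_eq_mul]
  have h4 : 2 * edges G ≤ Fintype.card V * Δ := by omega
  have h5 : (2 : ℝ) * edges G ≤ Fintype.card V * Δ := by exact_mod_cast h4
  linarith

/-- **one number of colours for each maximum degree is enough** -/
theorem one {c1 c2 c3 : ℝ} (h1 : 0 < c1) (h12 : c1 ≤ c2) (h23 : c2 < c3) {S : Set ℕ}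
    (hS : LogDense S) {kk : ℕ → ℕ}
    (hkk : ∀ᶠ D : ℕ in atTop, D ∈ S →
      c1 * (D / Real.log D) ≤ kk D ∧ (kk D : ℝ) ≤ c2 * (D / Real.log D))
    (hW : One S kk) : From c3 := by
  classical
  intro η hη0 hη1
  obtain ⟨Δ2, hΔ2⟩ := high hη0 hη1
  obtain ⟨Δ3, hΔ3⟩ := hW (η / 2) (by linarith) (by linarith)
  obtain ⟨Δ4, hΔ4⟩ := scale h1 h12 h23 hη0 hη1 hS hkk Δ3
  refine ⟨max Δ2 (max Δ4 3), fun Δ hΔ V _ G hG hd q hq => ?_⟩
  have g2 : Δ2 ≤ Δ := (le_max_left _ _).trans hΔ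
  have g4 : Δ4 ≤ Δ := ((le_max_left _ _).trans (le_max_right _ _)).trans hΔ
  have g5 : 3 ≤ Δ := ((le_max_right _ _).trans (le_max_right _ _)).trans hΔ
  rcases le_total (2 * ((Δ : ℝ) / Real.log Δ)) q with hq3 | hq3
  · exact hΔ2 Δ g2 V G hG hd q hq3
  obtain ⟨s, D, hDS, hs1, hk2, hskq, hDY, hp, hE0, hfin⟩ := hΔ4 Δ g4 q hq hq3
  obtain ⟨k, hk⟩ : ∃ k : ℕ, k = kk D := ⟨_, rfl⟩
  rw [← hk] at hk2 hskq hE0 hfin
  have : Fintype V := Fintype.ofFinite V
  have : NeZero s := ⟨by omega⟩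
  have hdeg : ∀ v, G.degree v ≤ Δ := fun v => by rw [← deg_eq]; exact hd v
  have hΔR : (3 : ℝ) ≤ Δ := by exact_mod_cast g5
  have hlog : 0 < Real.log Δ := Real.log_pos (by linarith)
  have hq0 : (0 : ℝ) < q := lt_of_lt_of_le
    (mul_pos (by linarith : 0 < c3) (div_pos (by linarith) hlog)) hq
  have hq1 : (1 : ℝ) ≤ q := by
    have : 0 < q := by exact_mod_cast hq0
    exact_mod_cast this
  have hkR : (2 : ℝ) ≤ k := by exact_mod_cast hk2
  have hA : 0 ≤ ((1 - η / 2) * (k : ℝ)) ^ Fintype.card V := by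
    apply pow_nonneg; apply mul_nonneg (by linarith) (by linarith)
  have ht := transfer G D hdeg hp hk2 hskq hA (fun f hf => by
    have h2 := hΔ3 D hDS hDY V (part G f) (hG.anti (part_le G f)) (fun v => deg_part G D hf v)
    rw [← hk] at h2
    unfold Bound at h2
    rwa [Nat.card_eq_fintype_card] at h2)
  unfold Bound
  rw [Nat.card_eq_fintype_card]
  refine le_trans ?_ ht
  -- numbers
  have hth0 : 0 < th Δ := lt_of_lt_of_le (by norm_num) (th_pos Δ)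
  have hs0 : (0 : ℝ) < s := by exact_mod_cast (show 0 < s by omega)
  have hts : 0 < th Δ * s := mul_pos hth0 hs0
  obtain ⟨m, hm⟩ : ∃ m : ℝ, m = edges G := ⟨_, rfl⟩
  have hm0 : 0 ≤ m := by rw [hm]; exact Nat.cast_nonneg _
  have hmle : m ≤ Fintype.card V * (Δ / 2) := by rw [hm]; exact edges_le G hdeg
  have hL : -Real.log (1 - 1 / (k : ℝ)) ≤ 1 / ((k : ℝ) - 1) := by
    have hy0 : 0 < 1 - 1 / (k : ℝ) := by
      have : 1 / (k : ℝ) ≤ 1 / 2 := by apply one_div_le_one_div_of_le <;> linarith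
      linarith
    rw [← Real.log_inv]
    refine (Real.log_le_sub_one_of_pos (inv_pos.2 hy0)).trans (le_of_eq ?_)
    have : (k : ℝ) - 1 ≠ 0 := by linarith
    have : (k : ℝ) ≠ 0 := by linarith
    field_simp
    ring
  have hLm : -Real.log (1 - 1 / (k : ℝ)) * (edges G / (th Δ * s)) ≤
      m * (1 / (((k : ℝ) - 1) * (th Δ * s))) := by
    rw [← hm]
    calc -Real.log (1 - 1 / (k : ℝ)) * (m / (th Δ * s))
        ≤ 1 / ((k : ℝ) - 1) * (m / (th Δ * s)) := mul_le_mul_of_nonneg_right hL (by positivity)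
      _ = m * (1 / (((k : ℝ) - 1) * (th Δ * s))) := by
          have : (k : ℝ) - 1 ≠ 0 := by linarith
          field_simp
  have hq' : (1 - 1 / (q : ℝ)) ^ edges G ≤ Real.exp (-(m * (1 / q))) := by
    have hy0 : 0 ≤ 1 - 1 / (q : ℝ) := by
      have : 1 / (q : ℝ) ≤ 1 := by rw [div_le_one hq0]; exact hq1
      linarith
    calc (1 - 1 / (q : ℝ)) ^ edges G ≤ Real.exp (-(1 / q)) ^ edges G := by
          refine pow_le_pow_left₀ hy0 ?_ _
          have := Real.add_one_le_exp (-(1 / (q : ℝ)))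
          linarith
      _ = Real.exp (-(m * (1 / q))) := by
          rw [← Real.exp_nat_mul, hm]; congr 1; ring
  obtain ⟨E, hE⟩ : ∃ E : ℝ, E = 1 / (((k : ℝ) - 1) * (th Δ * s)) - 1 / q := ⟨_, rfl⟩
  have hEn : 0 ≤ E := by rw [hE]; linarith
  have hmE : Real.exp (m * E) ≤ Real.exp (Δ / 2 * E) ^ Fintype.card V := by
    rw [← Real.exp_nat_mul, Real.exp_le_exp]
    calc m * E ≤ (Fintype.card V * (Δ / 2)) * E := mul_le_mul_of_nonneg_right hmle hEn
      _ = _ := by ring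
  have hqn : 0 ≤ ((1 - η) * (q : ℝ)) ^ Fintype.card V := by
    apply pow_nonneg; apply mul_nonneg (by linarith) hq0.le
  calc (1 - 1 / (q : ℝ)) ^ edges G * ((1 - η) * q) ^ Fintype.card V
      ≤ Real.exp (-(m * (1 / q))) * ((1 - η) * q) ^ Fintype.card V :=
        mul_le_mul_of_nonneg_right hq' hqn
    _ = Real.exp (-(m * (1 / (((k : ℝ) - 1) * (th Δ * s))))) *
          (Real.exp (m * E) * ((1 - η) * q) ^ Fintype.card V) := by
        rw [← mul_assoc, ← Real.exp_add]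
        congr 2
        rw [hE]; ring
    _ ≤ Real.exp (-(m * (1 / (((k : ℝ) - 1) * (th Δ * s))))) *
          (Real.exp (Δ / 2 * E) ^ Fintype.card V * ((1 - η) * q) ^ Fintype.card V) := by
        refine mul_le_mul_of_nonneg_left ?_ (Real.exp_pos _).le
        exact mul_le_mul_of_nonneg_right hmE hqn
    _ = Real.exp (-(m * (1 / (((k : ℝ) - 1) * (th Δ * s))))) *
          (Real.exp (Δ / 2 * E) * ((1 - η) * q)) ^ Fintype.card V := by rw [← mul_pow]
    _ ≤ Real.exp (-(m * (1 / (((k : ℝ) - 1) * (th Δ * s))))) *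
          (th Δ * s * ((1 - η / 2) * k)) ^ Fintype.card V := by
        refine mul_le_mul_of_nonneg_left ?_ (Real.exp_pos _).le
        refine pow_le_pow_left₀ ?_ ?_ _
        · exact mul_nonneg (Real.exp_pos _).le (mul_nonneg (by linarith) hq0.le)
        · rw [hE]; exact hfin
    _ ≤ Real.exp (-(-Real.log (1 - 1 / (k : ℝ)) * (edges G / (th Δ * s)))) *
          (th Δ * s * ((1 - η / 2) * k)) ^ Fintype.card V := by
        refine mul_le_mul_of_nonneg_right ?_ ?_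
        · rw [Real.exp_le_exp]; linarith
        · apply pow_nonneg
          apply mul_nonneg hts.le (mul_nonneg (by linarith) (by linarith))
    _ = (th Δ * s) ^ Fintype.card V *
          Real.exp (-(-Real.log (1 - 1 / (k : ℝ)) * (edges G / (th Δ * s)))) *
          ((1 - η / 2) * k) ^ Fintype.card V := by
        rw [mul_pow]; ring

end Pool.Agent.Q208.PC
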