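import Pool.Agent.Q208.PC.Avg

/-!
# The number of good maps (Rosenfeld counting) and the monochromatic edges
-/

set_option autoImplicit false
set_option linter.unusedSectionVars false

open Finset

namespace Pool.Agent.Q208.PC

variable {V : Type} [Fintype V] [DecidableEq V] (G : SimpleGraph V) [DecidableRel G.Adj] {s : ℕ}
  (D : ℕ)

/-- the parameters: `4 (Δ + 1)² ((s - 1 + x) / s)^Δ ≤ x^(D + 1)` -/
def Param (s D Δ : ℕ) : Prop := ∃ x : ℝ, 1 ≤ x ∧
  4 * ((Δ : ℝ) + 1) ^ 2 * ((s - 1 + x) / s) ^ Δ ≤ x ^ (D + 1)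

/-- `θ = 1 - 1 / (2 (Δ + 1))` -/
noncomputable def th (Δ : ℕ) : ℝ := 1 - 1 / (2 * ((Δ : ℝ) + 1))

theorem th_pos (Δ : ℕ) : 1 / 2 ≤ th Δ := by
  unfold th
  have h : (0 : ℝ) ≤ Δ := Nat.cast_nonneg _
  have : 1 / (2 * ((Δ : ℝ) + 1)) ≤ 1 / 2 := by
    apply one_div_le_one_div_of_le <;> linarith
  linarith

theorem th_lt (Δ : ℕ) : th Δ ≤ 1 := by
  unfold th
  have : 0 ≤ 1 / (2 * ((Δ : ℝ) + 1)) := by positivity
  linarith

theorem th_pow (Δ : ℕ) : 1 / 2 ≤ th Δ ^ (Δ + 1) := by
  have h0 : (0 : ℝ) ≤ Δ := Nat.cast_nonneg _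
  have h1 : (-2 : ℝ) ≤ -(1 / (2 * ((Δ : ℝ) + 1))) := by
    have : 1 / (2 * ((Δ : ℝ) + 1)) ≤ 1 / 2 := by
      apply one_div_le_one_div_of_le <;> linarith
    linarith
  have h2 := one_add_mul_le_pow h1 (Δ + 1)
  have h3 : (1 : ℝ) + ((Δ + 1 : ℕ) : ℝ) * -(1 / (2 * ((Δ : ℝ) + 1))) = 1 / 2 := by
    push_cast
    field_simp
    ring
  rw [h3] at h2
  have h4 : (1 : ℝ) + -(1 / (2 * ((Δ : ℝ) + 1))) = th Δ := by unfold th; ring
  rwa [h4] at h2

/-- chains: if each step loses at most the factor `θ`, then so does a set of steps -/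
theorem chain {t : ℝ} (ht0 : 0 < t) (ht1 : t ≤ 1) {H : Finset V}
    (ih : ∀ L : Finset V, L ⊂ H → ∀ w ∈ H, w ∉ L → t * aa G s D L ≤ aa G s D (insert w L)) :
    ∀ m : ℕ, ∀ L ⊆ H, (H \ L).card ≤ m → t ^ m * aa G s D L ≤ aa G s D H := by
  intro m
  induction m with
  | zero =>
    intro L hL hc
    have h1 : H \ L = ∅ := by
      rw [← card_eq_zero]; omega
    have h2 : H = L := subset_antisymm (sdiff_eq_empty_iff_subset.1 h1) hL
    rw [← h2]; simp
  | succ m ihm =>
    intro L hL hc
    by_cases hHL : H \ L = ∅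
    · have h2 : H = L := subset_antisymm (sdiff_eq_empty_iff_subset.1 hHL) hL
      rw [← h2]
      have h3 : t ^ (m + 1) ≤ 1 := pow_le_one₀ ht0.le ht1
      have h4 := aa_nonneg G (s := s) D H
      nlinarith
    · obtain ⟨w, hw⟩ := nonempty_iff_ne_empty.2 hHL
      rw [mem_sdiff] at hw
      have hss : L ⊂ H := ⟨hL, fun h => hw.2 (h hw.1)⟩
      have h5 := ih L hss w hw.1 hw.2
      have h6 : (H \ insert w L).card ≤ m := by
        have h7 : H \ insert w L = (H \ L).erase w := by
          ext y; simp only [mem_sdiff, mem_insert, mem_erase]; tauto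
        rw [h7, card_erase_of_mem (mem_sdiff.2 hw)]
        omega
      have h8 := ihm (insert w L) (insert_subset hw.1 hL) h6
      calc t ^ (m + 1) * aa G s D L = t ^ m * (t * aa G s D L) := by ring
        _ ≤ t ^ m * aa G s D (insert w L) := mul_le_mul_of_nonneg_left h5 (by positivity)
        _ ≤ aa G s D H := h8

/-- one more vertex: the number of good maps decreases at most by the factor `θ` -/
theorem step [NeZero s] {Δ : ℕ} (hΔ : ∀ v, G.degree v ≤ Δ) (hp : Param s D Δ) :
    ∀ (n : ℕ) (H : Finset V), H.card = n → ∀ v ∉ H,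
      th Δ * aa G s D H ≤ aa G s D (insert v H) := by
  intro n
  induction n using Nat.strong_induction_on with
  | _ n ih =>
  intro H hHn v hv
  have ht0 : 0 < th Δ := lt_of_lt_of_le (by norm_num) (th_pos Δ)
  have hch := chain G D (s := s) ht0 (th_lt Δ) (H := H) (fun L hL w hw hwL =>
    ih L.card (by rw [← hHn]; exact card_lt_card hL) L rfl w hwL)
  obtain ⟨x, hx1, hx⟩ := hp
  -- the violating maps
  let N : Finset V := insert v (G.neighborFinset v)
  have hN : N.card ≤ Δ + 1 := (card_insert_le _ _).trans (by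
    rw [SimpleGraph.card_neighborFinset_eq_degree]; exact Nat.succ_le_succ (hΔ v))
  let K : V → Finset V := fun u => H \ insert v (G.neighborFinset u)
  let B : V → Finset (V → Fin s) := fun u => univ.filter fun f : V → Fin s => Good G D (K u) f ∧
      D < ((G.neighborFinset u).filter fun w => f w = f u).card
  have hKs : ∀ u, K u ⊆ H := fun u => sdiff_subset
  have hKc : ∀ u ∈ N, (H \ K u).card ≤ Δ + 1 := by
    intro u _
    have h1 : H \ K u ⊆ insert v (G.neighborFinset u) := by
      intro y hy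
      simp only [K, mem_sdiff, not_and, not_not] at hy
      exact hy.2 hy.1
    refine (card_le_card h1).trans ((card_insert_le _ _).trans ?_)
    rw [SimpleGraph.card_neighborFinset_eq_degree]; exact Nat.succ_le_succ (hΔ u)
  have hB : ∀ u ∈ N, ((B u).card : ℝ) ≤ 1 / (2 * ((Δ : ℝ) + 1) ^ 2) * aa G s D H := by
    intro u hu
    have hd : Disjoint (G.neighborFinset u) (K u) := by
      rw [disjoint_left]
      intro y hy hy2
      simp only [K, mem_sdiff, mem_insert, not_or] at hy2
      exact hy2.2.2 hy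
    have hm := markov (s := s) G D hx1 (K u) (G.neighborFinset u) hd (u := u) (by simp)
      (Δ := Δ) (by rw [SimpleGraph.card_neighborFinset_eq_degree]; exact hΔ u)
    have hc := hch (Δ + 1) (K u) (hKs u) (hKc u hu)
    have hth := th_pow Δ
    have hK0 := aa_nonneg G (s := s) D (K u)
    have h2 : aa G s D (K u) ≤ 2 * aa G s D H := by nlinarith
    have hxD : 0 < x ^ (D + 1) := by positivity
    have hs0 : (0 : ℝ) < s := Nat.cast_pos.2 (Nat.pos_of_ne_zero (NeZero.ne s))
    have hr : 0 ≤ (((s : ℝ) - 1 + x) / s) ^ Δ := by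
      apply pow_nonneg
      apply div_nonneg _ hs0.le
      linarith
    have hΔ0 : (0 : ℝ) ≤ Δ := Nat.cast_nonneg _
    have h3 : ((B u).card : ℝ) * x ^ (D + 1) ≤
        (1 / (2 * ((Δ : ℝ) + 1) ^ 2) * aa G s D H) * x ^ (D + 1) := by
      calc ((B u).card : ℝ) * x ^ (D + 1) ≤ aa G s D (K u) * (((s : ℝ) - 1 + x) / s) ^ Δ := hm
        _ ≤ (2 * aa G s D H) * (((s : ℝ) - 1 + x) / s) ^ Δ := mul_le_mul_of_nonneg_right h2 hr
        _ = (1 / (2 * ((Δ : ℝ) + 1) ^ 2) * aa G s D H) *
            (4 * ((Δ : ℝ) + 1) ^ 2 * (((s : ℝ) - 1 + x) / s) ^ Δ) := by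
              field_simp
              ring
        _ ≤ _ := mul_le_mul_of_nonneg_left hx (mul_nonneg (by positivity) (aa_nonneg _ _ _))
    exact le_of_mul_le_mul_right h3 hxD
  -- covering
  have hcov : GS G s D H ⊆ GS G s D (insert v H) ∪ N.biUnion B := by
    intro f hf
    simp only [GS, mem_filter, mem_univ, true_and] at hf
    rw [mem_union, mem_biUnion]
    by_cases hg : Good G D (insert v H) f
    · left
      simp only [GS, mem_filter, mem_univ, true_and]
      exact hg
    · right
      unfold Good at hg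
      push Not at hg
      obtain ⟨u, hu, hDu⟩ := hg
      have huN : u ∈ N := by
        rcases mem_insert.1 hu with rfl | huH
        · exact mem_insert_self _ _
        · refine mem_insert_of_mem ?_
          rw [SimpleGraph.mem_neighborFinset]
          by_contra hadj
          have h1 : same G (insert v H) f u = same G H f u := by
            unfold same
            rw [filter_insert, if_neg]
            rintro ⟨h2, -⟩
            exact hadj h2.symm
          rw [h1] at hDu
          exact absurd (hf u huH) (not_le.2 hDu)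
      refine ⟨u, huN, ?_⟩
      simp only [B, mem_filter, mem_univ, true_and]
      refine ⟨good_mono G D (hKs u) hf, lt_of_lt_of_le hDu (card_le_card ?_)⟩
      intro y hy
      simp only [same, mem_filter] at hy
      simp only [mem_filter, SimpleGraph.mem_neighborFinset]
      exact hy.2
  have hfin : aa G s D H ≤ aa G s D (insert v H) + ∑ u ∈ N, ((B u).card : ℝ) := by
    unfold aa
    have h1 := card_le_card hcov
    have h2 := card_union_le (GS G s D (insert v H)) (N.biUnion B)
    have h3 := card_biUnion_le (s := N) (t := B)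
    have h4 : (GS G s D H).card ≤ (GS G s D (insert v H)).card + ∑ u ∈ N, (B u).card := by omega
    exact_mod_cast h4
  have hsum : ∑ u ∈ N, ((B u).card : ℝ) ≤ 1 / (2 * ((Δ : ℝ) + 1)) * aa G s D H := by
    have hΔ0 : (0 : ℝ) ≤ Δ := Nat.cast_nonneg _
    calc ∑ u ∈ N, ((B u).card : ℝ) ≤ ∑ _u ∈ N, 1 / (2 * ((Δ : ℝ) + 1) ^ 2) * aa G s D H :=
          sum_le_sum hB
      _ = (N.card : ℝ) * (1 / (2 * ((Δ : ℝ) + 1) ^ 2) * aa G s D H) := by
          rw [sum_const, nsmul_eq_mul]
      _ ≤ ((Δ : ℝ) + 1) * (1 / (2 * ((Δ : ℝ) + 1) ^ 2) * aa G s D H) := by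
          refine mul_le_mul_of_nonneg_right ?_ (mul_nonneg (by positivity) (aa_nonneg _ _ _))
          exact_mod_cast hN
      _ = 1 / (2 * ((Δ : ℝ) + 1)) * aa G s D H := by
          field_simp
  have : th Δ * aa G s D H = aa G s D H - 1 / (2 * ((Δ : ℝ) + 1)) * aa G s D H := by
    unfold th; ring
  linarith

/-- the number of good maps -/
theorem count [NeZero s] {Δ : ℕ} (hΔ : ∀ v, G.degree v ≤ Δ) (hp : Param s D Δ) :
    (th Δ * s) ^ Fintype.card V ≤ aa G s D univ := by
  have ht0 : 0 < th Δ := lt_of_lt_of_le (by norm_num) (th_pos Δ)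
  have h1 := chain G D (s := s) ht0 (th_lt Δ) (H := univ) (fun L _ w _ hwL =>
    step G D hΔ hp L.card L rfl w hwL) (Fintype.card V) ∅ (empty_subset _) (by simp)
  have h2 : aa G s D ∅ = (s : ℝ) ^ Fintype.card V := by
    unfold aa GS
    rw [filter_true_of_mem (fun f _ => by intro u hu; simp at hu)]
    simp
  rw [h2] at h1
  rw [mul_pow]
  exact h1

/-- the number of the good maps for which an edge is inside a part -/
theorem mono_edge [NeZero s] {Δ : ℕ} (hΔ : ∀ v, G.degree v ≤ Δ) (hp : Param s D Δ) {u v : V}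
    (huv : u ≠ v) :
    (((GS G s D univ).filter fun f => f u = f v).card : ℝ) * (th Δ * s) ≤ aa G s D univ := by
  have hs0 : (0 : ℝ) < s := Nat.cast_pos.2 (Nat.pos_of_ne_zero (NeZero.ne s))
  have ht0 : 0 < th Δ := lt_of_lt_of_le (by norm_num) (th_pos Δ)
  have hv : v ∉ univ.erase v := by simp
  have h1 := step G D hΔ hp (univ.erase v).card (univ.erase v) rfl v hv
  rw [insert_erase (mem_univ v)] at h1
  have key := avg (s := s) v (fun f => if Good G D (univ.erase v) f ∧ f u = f v then (1 : ℝ) else 0)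
  have h2 : ∀ f : V → Fin s, ∑ c : Fin s, (if Good G D (univ.erase v) (Function.update f v c) ∧
      Function.update f v c u = Function.update f v c v then (1 : ℝ) else 0)
      = if Good G D (univ.erase v) f then 1 else 0 := by
    intro f
    by_cases hG : Good G D (univ.erase v) f
    · rw [if_pos hG]
      have h3 : ∀ c : Fin s, (if Good G D (univ.erase v) (Function.update f v c) ∧
          Function.update f v c u = Function.update f v c v then (1 : ℝ) else 0)
          = if f u = c then 1 else 0 := by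
        intro c
        rw [Function.update_self, Function.update_of_ne huv]
        simp [good_update G D hv, hG]
      rw [sum_congr rfl fun c _ => h3 c]
      simp
    · rw [if_neg hG]
      refine sum_eq_zero fun c _ => ?_
      rw [if_neg]
      rintro ⟨h3, -⟩
      exact hG ((good_update G D hv).1 h3)
  rw [sum_congr rfl fun f _ => h2 f, ← aa_eq] at key
  have h4 : (((GS G s D univ).filter fun f => f u = f v).card : ℝ) ≤
      ∑ f : V → Fin s, (if Good G D (univ.erase v) f ∧ f u = f v then (1 : ℝ) else 0) := by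
    rw [← sum_filter, sum_const, nsmul_eq_mul, mul_one]
    have : (GS G s D univ).filter (fun f => f u = f v) ⊆
        univ.filter (fun f : V → Fin s => Good G D (univ.erase v) f ∧ f u = f v) := by
      intro f hf
      simp only [GS, mem_filter, mem_univ, true_and] at hf ⊢
      exact ⟨good_mono G D (erase_subset _ _) hf.1, hf.2⟩
    exact_mod_cast card_le_card this
  calc (((GS G s D univ).filter fun f => f u = f v).card : ℝ) * (th Δ * s)
      ≤ (∑ f : V → Fin s, (if Good G D (univ.erase v) f ∧ f u = f v then (1 : ℝ) else 0)) *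
        (th Δ * s) := mul_le_mul_of_nonneg_right h4 (by positivity)
    _ = th Δ * (s * ∑ f : V → Fin s,
          (if Good G D (univ.erase v) f ∧ f u = f v then (1 : ℝ) else 0)) := by ring
    _ = th Δ * aa G s D (univ.erase v) := by rw [key]
    _ ≤ aa G s D univ := h1

end Pool.Agent.Q208.PC
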